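import Mathlib

set_option autoImplicit false

open MeasureTheory Filter Topology Complex Set

namespace Q97.BG

noncomputable section

/-- Cauchy transform -/
def CT (g : ℝ → ℂ) (z : ℂ) : ℂ := ∫ t : ℝ, g t / ((t : ℂ) - z)

variable {g : ℝ → ℂ}

theorem im_le_norm (t : ℝ) (z : ℂ) : |z.im| ≤ ‖(t : ℂ) - z‖ := by
  have := Complex.abs_im_le_norm ((t : ℂ) - z)
  simpa using this

theorem aesm_div {z : ℂ} (hg : Integrable g) :
    AEStronglyMeasurable (fun t : ℝ => g t / ((t : ℂ) - z)) volume := by
  have h1 : Measurable (fun t : ℝ => ((t : ℂ) - z)⁻¹) := by fun_prop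
  exact (hg.aestronglyMeasurable.mul h1.aestronglyMeasurable).congr
    (Eventually.of_forall fun t => (div_eq_mul_inv _ _).symm)

/-- The Cauchy transform is holomorphic off the support. -/
theorem CT_diff (hg : Integrable g) {z₀ : ℂ} {d : ℝ} (hd : 0 < d)
    (h : ∀ᵐ t : ℝ, ‖(t : ℂ) - z₀‖ < d → g t = 0) : DifferentiableAt ℂ (CT g) z₀ := by
  have hfar : ∀ᵐ t : ℝ, ∀ z ∈ Metric.ball z₀ (d / 2), g t = 0 ∨ d / 2 ≤ ‖(t : ℂ) - z‖ := by
    filter_upwards [h] with t ht z hz
    by_cases h0 : g t = 0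
    · exact Or.inl h0
    · right
      have h1 : d ≤ ‖(t : ℂ) - z₀‖ := by
        by_contra hc
        exact h0 (ht (not_le.mp hc))
      have h2 : ‖z - z₀‖ < d / 2 := by rwa [Metric.mem_ball, dist_eq_norm] at hz
      have h3 : ‖(t : ℂ) - z₀‖ ≤ ‖(t : ℂ) - z‖ + ‖z - z₀‖ := by
        have := norm_add_le ((t : ℂ) - z) (z - z₀)
        rwa [sub_add_sub_cancel] at this
      linarith
  have hz0 : z₀ ∈ Metric.ball z₀ (d / 2) := Metric.mem_ball_self (by positivity)
  refine (hasDerivAt_integral_of_dominated_loc_of_deriv_le (𝕜 := ℂ)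
    (F := fun z t => g t / ((t : ℂ) - z)) (F' := fun z t => g t / ((t : ℂ) - z) ^ 2)
    (bound := fun t => ‖g t‖ * (4 / d ^ 2)) (Metric.ball_mem_nhds z₀ (by positivity : 0 < d / 2))
    (Eventually.of_forall fun z => aesm_div hg) ?_ ?_ ?_ (hg.norm.mul_const _) ?_).2.differentiableAt
  · refine (hg.norm.mul_const (2 / d)).mono' (aesm_div hg) ?_
    filter_upwards [hfar] with t ht
    rcases ht z₀ hz0 with h1 | h1
    · rw [h1]; simp
    · rw [norm_div, div_eq_mul_inv]
      apply mul_le_mul_of_nonneg_left _ (norm_nonneg _)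
      rw [← one_div, div_le_div_iff₀ (by linarith) hd]
      linarith
  · have h1 : Measurable (fun t : ℝ => (((t : ℂ) - z₀) ^ 2)⁻¹) := by fun_prop
    exact (hg.aestronglyMeasurable.mul h1.aestronglyMeasurable).congr
      (Eventually.of_forall fun t => (div_eq_mul_inv _ _).symm)
  · filter_upwards [hfar] with t ht z hz
    rcases ht z hz with h1 | h1
    · simp [h1]
    · rw [norm_div, norm_pow, div_eq_mul_inv]
      apply mul_le_mul_of_nonneg_left _ (norm_nonneg _)
      have h2 : d ^ 2 / 4 ≤ ‖(t : ℂ) - z‖ ^ 2 := by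
        have := pow_le_pow_left₀ (by positivity) h1 2
        nlinarith
      rw [← one_div, div_le_div_iff₀ (by nlinarith) (by positivity)]
      linarith
  · filter_upwards [hfar] with t ht z hz
    rcases ht z hz with h1 | h1
    · simp only [h1, zero_div]
      exact hasDerivAt_const _ _
    · have hne : (t : ℂ) - z ≠ 0 := by
        intro h0
        rw [h0, norm_zero] at h1
        linarith
      have h2 := (((hasDerivAt_id z).const_sub (t : ℂ)).inv hne).const_mul (g t)
      refine (h2.congr_deriv ?_).congr_of_eventuallyEq ?_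
      · simp only [id]
        field_simp
      · exact Eventually.of_forall fun w => by
          simp only [id, div_eq_mul_inv]
          rfl

/-- Shift of the spectrum. -/
theorem CT_shift (hg : Integrable g) {S : ℝ}
    (h0 : ∀ s : ℝ, |s| ≤ S → ∫ t : ℝ, g t * cexp (-(s * t * I)) = 0) {z : ℂ} (hz : z.im ≠ 0)
    {σ : ℝ} (hσ : |σ| ≤ S) :
    CT g z = ∫ t : ℝ, g t * cexp (σ * (z - t) * I) / ((t : ℂ) - z) := by
  have hy : 0 < |z.im| := abs_pos.mpr hz
  have hne : ∀ t : ℝ, (t : ℂ) - z ≠ 0 := by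
    intro t h
    have := im_le_norm t z
    rw [h, norm_zero] at this
    linarith
  have hexpn : ∀ (s t : ℝ), ‖cexp (s * (z - t) * I)‖ = Real.exp (-(s * z.im)) := by
    intro s t
    rw [Complex.norm_exp]
    congr 1
    simp
  have i1 : Integrable (fun t : ℝ => g t / ((t : ℂ) - z)) := by
    refine (hg.norm.mul_const (1 / |z.im|)).mono' (aesm_div hg) (Eventually.of_forall fun t => ?_)
    rw [norm_div, div_eq_mul_inv]
    apply mul_le_mul_of_nonneg_left _ (norm_nonneg _)
    rw [← one_div]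
    exact one_div_le_one_div_of_le hy (im_le_norm t z)
  have i2 : Integrable (fun t : ℝ => g t * cexp (σ * (z - t) * I) / ((t : ℂ) - z)) := by
    have hm : AEStronglyMeasurable (fun t : ℝ => cexp (σ * (z - t) * I)) volume := by fun_prop
    refine (i1.norm.mul_const (Real.exp (-(σ * z.im)))).mono' ?_ (Eventually.of_forall fun t => ?_)
    · refine ((aesm_div hg (z := z)).mul hm).congr (Eventually.of_forall fun t => ?_)
      simp only [Pi.mul_apply]
      ring
    · rw [norm_div, norm_mul, hexpn, norm_div]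
      apply le_of_eq
      ring
  unfold CT
  rw [← sub_eq_zero, ← integral_sub i1 i2]
  -- the difference is a band limited average
  have hinner : ∀ t : ℝ, g t / ((t : ℂ) - z) - g t * cexp (σ * (z - t) * I) / ((t : ℂ) - z) =
      ∫ s in (0 : ℝ)..σ, g t * cexp (s * (z - t) * I) * I := by
    intro t
    have hc : (z - t) * I ≠ 0 := mul_ne_zero (by
      intro h
      apply hne t
      rw [← neg_sub, h, neg_zero]) Complex.I_ne_zero
    have e1 : ∀ s : ℝ, g t * cexp (s * (z - t) * I) * I = (g t * I) * cexp ((z - t) * I * s) := by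
      intro s
      rw [show (s : ℂ) * (z - t) * I = (z - t) * I * s by ring]
      ring
    rw [intervalIntegral.integral_congr (g := fun s : ℝ => (g t * I) * cexp ((z - t) * I * s))
      (fun s _ => e1 s), intervalIntegral.integral_const_mul, integral_exp_mul_complex hc]
    have e2 : (z - t) * I * ((0 : ℝ) : ℂ) = 0 := by simp
    have e3 : (σ : ℂ) * (z - t) * I = (z - t) * I * σ := by ring
    rw [e2, Complex.exp_zero, e3]
    have hzt : (z - t : ℂ) ≠ 0 := by
      intro h
      apply hne t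
      rw [← neg_sub, h, neg_zero]
    have hI := Complex.I_ne_zero
    have h4 := hne t
    field_simp
    ring
  rw [integral_congr_ae (Eventually.of_forall hinner)]
  set K : ℝ := Real.exp (|σ| * |z.im|) with hK
  have hint : Integrable (Function.uncurry fun (s t : ℝ) => g t * cexp (s * (z - t) * I) * I)
      ((volume.restrict (Set.uIoc 0 σ)).prod volume) := by
    have hfin : IsFiniteMeasure ((volume : Measure ℝ).restrict (Set.uIoc 0 σ)) := by
      constructor
      rw [Measure.restrict_apply_univ, Set.uIoc, Real.volume_Ioc]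
      exact ENNReal.ofReal_lt_top
    have hgs : Integrable (fun p : ℝ × ℝ => g p.2) ((volume.restrict (Set.uIoc 0 σ)).prod volume) :=
      hg.comp_snd _
    have hm : Continuous (fun p : ℝ × ℝ => cexp (p.1 * (z - p.2) * I)) := by fun_prop
    have hmem : ∀ᵐ p : ℝ × ℝ ∂((volume.restrict (Set.uIoc 0 σ)).prod volume), p.1 ∈ Set.uIoc 0 σ := by
      have h1 : ∀ᵐ s : ℝ ∂(volume.restrict (Set.uIoc 0 σ)), s ∈ Set.uIoc 0 σ :=
        ae_restrict_mem measurableSet_uIoc
      exact Measure.quasiMeasurePreserving_fst.ae h1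
    refine (hgs.norm.mul_const K).mono' ?_ ?_
    · exact (hgs.aestronglyMeasurable.mul hm.aestronglyMeasurable).mul_const I
    · filter_upwards [hmem] with p hp
      simp only [Function.uncurry]
      rw [norm_mul, norm_mul, Complex.norm_I, mul_one, hexpn]
      apply mul_le_mul_of_nonneg_left _ (norm_nonneg _)
      apply Real.exp_le_exp.2
      have hp1 : |p.1| ≤ |σ| := by
        rcases Set.mem_uIoc.mp hp with ⟨h1, h2⟩ | ⟨h1, h2⟩
        · rw [abs_of_pos h1]
          exact h2.trans (le_abs_self _)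
        · rw [abs_of_nonpos h2]
          linarith [neg_abs_le σ]
      calc -(p.1 * z.im) ≤ |p.1 * z.im| := neg_le_abs _
        _ = |p.1| * |z.im| := abs_mul _ _
        _ ≤ |σ| * |z.im| := by gcongr
  rw [← intervalIntegral_integral_swap hint]
  have hzero : ∀ s ∈ Set.uIcc 0 σ, (∫ t : ℝ, g t * cexp (s * (z - t) * I) * I) = 0 := by
    intro s hs
    have hs' : |s| ≤ S := by
      refine le_trans ?_ hσ
      rcases Set.mem_uIcc.mp hs with ⟨h1, h2⟩ | ⟨h1, h2⟩
      · rw [abs_of_nonneg h1]
        exact h2.trans (le_abs_self _)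
      · rw [abs_of_nonpos h2]
        linarith [neg_abs_le σ]
    have e1 : ∀ t : ℝ, g t * cexp (s * (z - t) * I) * I =
        (cexp (s * z * I) * I) * (g t * cexp (-(s * t * I))) := by
      intro t
      rw [show (s : ℂ) * (z - t) * I = s * z * I + -(s * t * I) by ring, Complex.exp_add]
      ring
    rw [integral_congr_ae (Eventually.of_forall e1), integral_const_mul, h0 s hs', mul_zero]
  rw [intervalIntegral.integral_congr (g := fun _ => (0 : ℂ)) hzero]
  simp

/-- Decay of the Cauchy transform. -/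
theorem CT_decay (hg : Integrable g) {S : ℝ} (hS : 0 ≤ S)
    (h0 : ∀ s : ℝ, |s| ≤ S → ∫ t : ℝ, g t * cexp (-(s * t * I)) = 0) {z : ℂ} (hz : z.im ≠ 0) :
    ‖CT g z‖ ≤ (∫ t, ‖g t‖) * Real.exp (-(S * |z.im|)) / |z.im| := by
  have hy : 0 < |z.im| := abs_pos.mpr hz
  obtain ⟨σ, hσ, hσz⟩ : ∃ σ : ℝ, |σ| ≤ S ∧ σ * z.im = S * |z.im| := by
    rcases le_total 0 z.im with h | h
    · exact ⟨S, by rw [abs_of_nonneg hS], by rw [abs_of_nonneg h]⟩
    · exact ⟨-S, by rw [abs_neg, abs_of_nonneg hS], by rw [abs_of_nonpos h]; ring⟩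
  rw [CT_shift hg h0 hz hσ]
  refine (norm_integral_le_integral_norm _).trans ?_
  have h1 : ∀ t : ℝ, ‖g t * cexp (σ * (z - t) * I) / ((t : ℂ) - z)‖ ≤
      ‖g t‖ * (Real.exp (-(S * |z.im|)) / |z.im|) := by
    intro t
    have e : ‖cexp (σ * (z - t) * I)‖ = Real.exp (-(S * |z.im|)) := by
      rw [Complex.norm_exp, ← hσz]
      congr 1
      simp
    rw [norm_div, norm_mul, e, mul_div_assoc]
    apply mul_le_mul_of_nonneg_left _ (norm_nonneg _)
    exact div_le_div_of_nonneg_left (Real.exp_pos _).le hy (im_le_norm t z)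
  have h2 : ∫ t : ℝ, ‖g t * cexp (σ * (z - t) * I) / ((t : ℂ) - z)‖ ≤
      ∫ t : ℝ, ‖g t‖ * (Real.exp (-(S * |z.im|)) / |z.im|) :=
    integral_mono_of_nonneg (Eventually.of_forall fun t => norm_nonneg _)
      (hg.norm.mul_const _) (Eventually.of_forall h1)
  refine h2.trans (le_of_eq ?_)
  rw [integral_mul_const]
  ring

end

end Q97.BG
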