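import Pool.Agent.Q97.BG.Cau

set_option autoImplicit false

open MeasureTheory Filter Topology Complex Set

namespace Q97.BG

noncomputable section

variable {g : ℝ → ℂ}

theorem sq_norm {w : ℂ} {r : ℝ} (hr : 0 ≤ r) (hw : ‖w‖ = r) : ‖w ^ 2 - (r : ℂ) ^ 2‖ = 2 * r * |w.im| := by
  have h1 : w.re ^ 2 + w.im ^ 2 = r ^ 2 := by
    rw [← hw, ← Complex.normSq_eq_norm_sq, Complex.normSq_apply]
    ring
  have h2 : ‖w ^ 2 - (r : ℂ) ^ 2‖ ^ 2 = (2 * r * |w.im|) ^ 2 := by
    rw [← Complex.normSq_eq_norm_sq, Complex.normSq_apply, mul_pow, mul_pow, sq_abs, ← h1]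
    have e1 : (w ^ 2 - (r : ℂ) ^ 2).re = w.re ^ 2 - w.im ^ 2 - r ^ 2 := by
      rw [Complex.sub_re, sq, Complex.mul_re]
      have : ((r : ℂ) ^ 2).re = r ^ 2 := by
        rw [← Complex.ofReal_pow, Complex.ofReal_re]
      rw [this]
      ring
    have e2 : (w ^ 2 - (r : ℂ) ^ 2).im = 2 * w.re * w.im := by
      rw [Complex.sub_im, sq, Complex.mul_im]
      have : ((r : ℂ) ^ 2).im = 0 := by
        rw [← Complex.ofReal_pow, Complex.ofReal_im]
      rw [this]
      ring
    rw [e1, e2, ← h1]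
    ring
  exact (pow_left_inj₀ (norm_nonneg _) (by positivity) two_ne_zero).mp h2

theorem exp_norm (w : ℂ) (S r : ℝ) :
    ‖cexp ((S / 2 : ℝ) * (r - w ^ 2 / r))‖ =
      Real.exp (S / 2 * (r - (w.re ^ 2 - w.im ^ 2) / r)) := by
  rw [Complex.norm_exp, Complex.re_ofReal_mul, Complex.sub_re, Complex.div_ofReal_re, sq,
    Complex.mul_re, Complex.ofReal_re]
  congr 2
  ring

/-- Exponential smallness in the middle of a gap of the support. -/
theorem disc (hg : Integrable g) {S : ℝ} (hS : 0 ≤ S)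
    (h0 : ∀ s : ℝ, |s| ≤ S → ∫ t : ℝ, g t * cexp (-(s * t * I)) = 0) {m r R : ℝ} (hr : 0 < r)
    (hrR : r < R) (hgap : ∀ᵐ t : ℝ, |t - m| < R → g t = 0) {z : ℂ} (hz : ‖z - m‖ ≤ r / 4) :
    ‖CT g z‖ ≤ 3 * (∫ t, ‖g t‖) / r * Real.exp (-(S * r / 4)) := by
  set N := ∫ t, ‖g t‖ with hN
  have hN0 : 0 ≤ N := integral_nonneg fun t => norm_nonneg _
  set W : ℂ → ℂ := fun z => CT g z * ((z - m) ^ 2 - (r : ℂ) ^ 2) *
    cexp ((S / 2 : ℝ) * (r - (z - m) ^ 2 / r)) with hW
  have hdiff : ∀ z ∈ Metric.closedBall (m : ℂ) r, DifferentiableAt ℂ W z := by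
    intro z hz
    rw [Metric.mem_closedBall, dist_eq_norm] at hz
    have h1 : DifferentiableAt ℂ (CT g) z := by
      refine CT_diff hg (d := R - r) (by linarith) ?_
      filter_upwards [hgap] with t ht hd
      apply ht
      have h2 : ‖(t : ℂ) - m‖ ≤ ‖(t : ℂ) - z‖ + ‖z - m‖ := by
        have := norm_add_le ((t : ℂ) - z) (z - m)
        rwa [sub_add_sub_cancel] at this
      rw [← Complex.ofReal_sub, Complex.norm_real, Real.norm_eq_abs] at h2
      linarith
    have h2 : DifferentiableAt ℂ (fun z : ℂ => (z - m) ^ 2 - (r : ℂ) ^ 2) z := by fun_prop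
    have h3 : DifferentiableAt ℂ (fun z : ℂ => cexp ((S / 2 : ℝ) * (r - (z - m) ^ 2 / r))) z := by
      fun_prop
    exact (h1.mul h2).mul h3
  have hdc : DiffContOnCl ℂ W (Metric.ball (m : ℂ) r) := by
    apply DifferentiableOn.diffContOnCl
    rw [closure_ball _ hr.ne']
    exact fun z hz => (hdiff z hz).differentiableWithinAt
  have hbd : ∀ z ∈ frontier (Metric.ball (m : ℂ) r), ‖W z‖ ≤ 2 * r * N := by
    intro z hz
    rw [frontier_ball _ hr.ne', mem_sphere_iff_norm] at hz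
    set w := z - m with hw
    have hwim : w.im = z.im := by simp [hw]
    simp only [hW]
    rw [← hw, norm_mul, norm_mul, sq_norm hr.le hz, exp_norm]
    have h1 : w.re ^ 2 + w.im ^ 2 = r ^ 2 := by
      rw [← hz, ← Complex.normSq_eq_norm_sq, Complex.normSq_apply]
      ring
    by_cases hy : z.im = 0
    · rw [hwim, hy]
      simp
      positivity
    · have hyp : 0 < |z.im| := abs_pos.mpr hy
      have h2 := CT_decay hg hS h0 hy
      have h3 : r - (w.re ^ 2 - w.im ^ 2) / r = 2 * w.im ^ 2 / r := by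
        field_simp
        linarith
      have h4 : |w.im| ≤ r := by
        rw [← hz]
        exact Complex.abs_im_le_norm w
      have h5 : Real.exp (S / 2 * (r - (w.re ^ 2 - w.im ^ 2) / r)) ≤ Real.exp (S * |z.im|) := by
        rw [h3]
        apply Real.exp_le_exp.2
        have h6 : S / 2 * (2 * w.im ^ 2 / r) = S * (|w.im| * (|w.im| / r)) := by
          rw [← sq_abs]
          ring
        rw [h6, ← hwim]
        apply mul_le_mul_of_nonneg_left _ hS
        apply mul_le_of_le_one_right (abs_nonneg _)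
        rw [div_le_one hr]
        exact h4
      rw [hwim]
      calc ‖CT g z‖ * (2 * r * |z.im|) * Real.exp (S / 2 * (r - (w.re ^ 2 - z.im ^ 2) / r))
          ≤ (N * Real.exp (-(S * |z.im|)) / |z.im|) * (2 * r * |z.im|) *
              Real.exp (S * |z.im|) := by
            rw [hwim] at h5
            gcongr
        _ = 2 * r * N * (Real.exp (-(S * |z.im|)) * Real.exp (S * |z.im|)) := by
            field_simp
        _ = 2 * r * N := by
            rw [← Real.exp_add, neg_add_cancel, Real.exp_zero, mul_one]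
  have hzc : z ∈ closure (Metric.ball (m : ℂ) r) := by
    rw [closure_ball _ hr.ne', Metric.mem_closedBall, dist_eq_norm]
    linarith
  have hfin := Complex.norm_le_of_forall_mem_frontier_norm_le Metric.isBounded_ball hdc hbd hzc
  simp only [hW] at hfin
  rw [norm_mul, norm_mul, exp_norm] at hfin
  set w := z - m with hw
  have hw2 : ‖w ^ 2‖ ≤ r ^ 2 / 16 := by
    rw [norm_pow]
    have := pow_le_pow_left₀ (norm_nonneg _) hz 2
    nlinarith
  have h1 : 15 / 16 * r ^ 2 ≤ ‖w ^ 2 - (r : ℂ) ^ 2‖ := by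
    have h2 := norm_sub_norm_le ((r : ℂ) ^ 2) (w ^ 2)
    rw [norm_sub_rev, norm_pow, Complex.norm_real, Real.norm_of_nonneg hr.le] at h2
    linarith
  have h3 : Real.exp (S * r / 4) ≤ Real.exp (S / 2 * (r - (w.re ^ 2 - w.im ^ 2) / r)) := by
    apply Real.exp_le_exp.2
    have h4 : w.re ^ 2 - w.im ^ 2 ≤ r ^ 2 / 16 := by
      have h5 : w.re ^ 2 ≤ ‖w‖ ^ 2 := by
        rw [← Complex.normSq_eq_norm_sq, Complex.normSq_apply]
        nlinarith [mul_self_nonneg w.im]
      rw [norm_pow] at hw2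
      nlinarith [sq_nonneg w.im]
    have h5 : (w.re ^ 2 - w.im ^ 2) / r ≤ r / 16 := by
      rw [div_le_iff₀ hr]
      nlinarith
    nlinarith
  have hc0 := norm_nonneg (CT g z)
  have h6 : ‖CT g z‖ * (15 / 16 * r ^ 2) * Real.exp (S * r / 4) ≤ 2 * r * N := by
    refine le_trans ?_ hfin
    gcongr
  rw [Real.exp_neg, ← div_eq_mul_inv, div_div, le_div_iff₀ (by positivity)]
  have hE := Real.exp_pos (S * r / 4)
  have h7 : ‖CT g z‖ * (r * Real.exp (S * r / 4)) * (15 / 16 * r) ≤ 2 * N * r := by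
    nlinarith
  have h8 : ‖CT g z‖ * (r * Real.exp (S * r / 4)) * (15 / 16) ≤ 2 * N := by
    have h9 : (‖CT g z‖ * (r * Real.exp (S * r / 4)) * (15 / 16)) * r ≤ (2 * N) * r := by
      nlinarith
    exact le_of_mul_le_mul_right h9 hr
  nlinarith

end

end Q97.BG
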