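import Pool.Agent.Q97.BG.Gap1
import Pool.Agent.Y744.PCR.Abs

set_option autoImplicit false

open MeasureTheory Filter Topology Set Pool.Agent.Y744

namespace Q97.BG

noncomputable section

variable {H : ℝ → ℝ} {κ B lam : ℝ} {a b σ : ℕ → ℝ}

/-- functions with polynomial growth against one test function -/
theorem weight_gap1 (hκ : 0 < κ) (hHm : Measurable H) (hHe : ∀ y, H (-y) = H y)
    (hHb : ∀ y, |H y| ≤ B * (1 + y ^ 2)) (hz : ∀ K, TK κ K → ∫ y, H y * ct K y = 0)
    (ha : ∀ n, 0 < a n) (hlam : 0 < lam) (hlen : ∀ n, a n + lam ≤ b n)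
    (hdisj : ∀ n k, n ≠ k → ∀ x : ℝ, a n < x → x < b n → a k < x → x < b k → False)
    (hσ : ∀ n, σ n = 1 ∨ σ n = -1)
    (hsgn : ∀ n, ∀ᵐ t : ℝ, a n < t → t < b n → 0 ≤ σ n * H t)
    (hdiv : ¬ Summable (fun n => ((b n - a n) / b n) ^ 2)) {K : ℝ → ℝ} (hK : TK (κ / 2) K)
    (hKn : ∀ t, 0 ≤ ct K t) :
    ∀ᵐ t, H t * ct K t = 0 := by
  obtain ⟨D, hD0, hD⟩ := hK.decay 2
  have hB0 : 0 ≤ B := by
    have := (abs_nonneg _).trans (hHb 0)
    simpa using this
  set g : ℝ → ℝ := fun t => H t * ct K t with hg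
  have hgm : Measurable g := hHm.mul hK.ct_cont.measurable
  have hgb : ∀ t, |g t| ≤ B * D * (1 + t ^ 2)⁻¹ := by
    intro t
    simp only [hg]
    rw [abs_mul]
    have h1 : 0 < 1 + t ^ 2 := by positivity
    calc |H t| * |ct K t| ≤ (B * (1 + t ^ 2)) * (D / (1 + t ^ 2) ^ 2) := by
          gcongr
          · exact hHb t
          · exact hD t
      _ = B * D * (1 + t ^ 2)⁻¹ := by field_simp
  have hgi : Integrable g := (integrable_inv_one_add_sq.const_mul (B * D)).mono'
    hgm.aestronglyMeasurable (Eventually.of_forall fun t => by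
      rw [Real.norm_eq_abs]
      exact hgb t)
  have hg2 : MemLp (fun t => (g t : ℂ)) 2 := by
    rw [memLp_two_iff_integrable_sq_norm hgm.complex_ofReal.aestronglyMeasurable]
    refine (integrable_inv_one_add_sq.const_mul ((B * D) ^ 2)).mono'
      (hgm.complex_ofReal.norm.pow_const 2).aestronglyMeasurable (Eventually.of_forall fun t => ?_)
    rw [Real.norm_of_nonneg (by positivity), Complex.norm_real, Real.norm_eq_abs]
    have h1 := pow_le_pow_left₀ (abs_nonneg _) (hgb t) 2
    refine h1.trans ?_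
    rw [mul_pow]
    apply mul_le_mul_of_nonneg_left _ (by positivity)
    have h2 : (1 + t ^ 2)⁻¹ ≤ 1 := inv_le_one_of_one_le₀ (by nlinarith [sq_nonneg t])
    have h3 : 0 ≤ (1 + t ^ 2)⁻¹ := by positivity
    nlinarith
  have hge : ∀ t, g (-t) = g t := by
    intro t
    simp only [hg]
    rw [hHe, TK.ct_neg]
  have hft : ∀ s : ℝ, |s| ≤ Real.pi * κ → ft (fun t => (g t : ℂ)) s = 0 := by
    intro s hs
    set τ : ℝ := s / (2 * Real.pi) with hτ
    have hπ := Real.pi_pos
    have hτκ : |τ| ≤ κ / 2 := by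
      rw [hτ, abs_div, abs_of_pos (by positivity : (0 : ℝ) < 2 * Real.pi),
        div_le_div_iff₀ (by positivity) (by norm_num)]
      linarith
    -- the cosine part
    have hc : ∫ t, g t * Real.cos (s * t) = 0 := by
      have h1 := hz _ ((hK.modul τ).mono (show κ / 2 + |τ| ≤ κ by linarith))
      rw [← h1]
      refine integral_congr_ae (Eventually.of_forall fun t => ?_)
      simp only [hg]
      rw [hK.ct_modul]
      have e : 2 * Real.pi * τ * t = s * t := by
        rw [hτ]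
        field_simp
      rw [e]
      ring
    have hs0 : ∫ t, g t * Real.sin (s * t) = 0 := by
      have h1 : ∫ t, g t * Real.sin (s * t) = ∫ t, g (-t) * Real.sin (s * (-t)) :=
        (integral_neg_eq_self (fun t => g t * Real.sin (s * t)) volume).symm
      have h2 : ∫ t, g (-t) * Real.sin (s * (-t)) = -∫ t, g t * Real.sin (s * t) := by
        rw [← integral_neg]
        refine integral_congr_ae (Eventually.of_forall fun t => ?_)
        simp only
        rw [hge, mul_neg, Real.sin_neg]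
        ring
      linarith
    have i1 : Integrable (fun t => g t * Real.cos (s * t)) :=
      hgi.norm.mono' (hgm.mul (by fun_prop)).aestronglyMeasurable
        (Eventually.of_forall fun t => by
          rw [norm_mul]
          exact mul_le_of_le_one_right (norm_nonneg _) (Real.abs_cos_le_one _))
    have i2 : Integrable (fun t => g t * Real.sin (s * t)) :=
      hgi.norm.mono' (hgm.mul (by fun_prop)).aestronglyMeasurable
        (Eventually.of_forall fun t => by
          rw [norm_mul]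
          exact mul_le_of_le_one_right (norm_nonneg _) (Real.abs_sin_le_one _))
    unfold ft
    have e1 : ∀ t : ℝ, (g t : ℂ) * Complex.exp (-(s * t * Complex.I)) =
        ((g t * Real.cos (s * t) : ℝ) : ℂ) - ((g t * Real.sin (s * t) : ℝ) : ℂ) * Complex.I := by
      intro t
      have : -((s : ℂ) * t * Complex.I) = ((-(s * t) : ℝ) : ℂ) * Complex.I := by push_cast; ring
      rw [this, Complex.exp_mul_I, ← Complex.ofReal_cos, ← Complex.ofReal_sin, Real.cos_neg,
        Real.sin_neg]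
      push_cast
      ring
    have j1 : ∫ t : ℝ, ((g t * Real.cos (s * t) : ℝ) : ℂ) = 0 := by
      have := integral_ofReal (μ := (volume : Measure ℝ)) (𝕜 := ℂ)
        (f := fun t : ℝ => g t * Real.cos (s * t))
      rw [hc] at this
      simpa using this
    have j2 : ∫ t : ℝ, ((g t * Real.sin (s * t) : ℝ) : ℂ) = 0 := by
      have := integral_ofReal (μ := (volume : Measure ℝ)) (𝕜 := ℂ)
        (f := fun t : ℝ => g t * Real.sin (s * t))
      rw [hs0] at this
      simpa using this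
    rw [integral_congr_ae (Eventually.of_forall e1), integral_sub i1.ofReal
      (i2.ofReal.mul_const _), integral_mul_const, j1, j2, zero_mul, sub_zero]
  exact gap_real1 hgi hg2 (by positivity : 0 < Real.pi * κ) hft ha hlam hlen hdisj hσ (fun n => by
    filter_upwards [hsgn n] with t ht h1 h2
    show 0 ≤ σ n * (H t * ct K t)
    rw [← mul_assoc]
    exact mul_nonneg (ht h1 h2) (hKn t)) hdiv

/-- **A function of polynomial growth with a spectral gap around the origin which has a constant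
sign on every interval of a long system vanishes.** -/
theorem even_gap1 (hκ : 0 < κ) (hHm : Measurable H) (hHe : ∀ y, H (-y) = H y)
    (hHb : ∀ y, |H y| ≤ B * (1 + y ^ 2)) (hz : ∀ K, TK κ K → ∫ y, H y * ct K y = 0)
    (ha : ∀ n, 0 < a n) (hlam : 0 < lam) (hlen : ∀ n, a n + lam ≤ b n)
    (hdisj : ∀ n k, n ≠ k → ∀ x : ℝ, a n < x → x < b n → a k < x → x < b k → False)
    (hσ : ∀ n, σ n = 1 ∨ σ n = -1)
    (hsgn : ∀ n, ∀ᵐ t : ℝ, a n < t → t < b n → 0 ≤ σ n * H t)
    (hdiv : ¬ Summable (fun n => ((b n - a n) / b n) ^ 2)) : ∀ᵐ t, H t = 0 := by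
  obtain ⟨K, hK, hpos, h0, hle⟩ := exists_pos (show 0 < κ / 2 by positivity)
  have h1 : ∀ j : ℕ, ∀ᵐ t, H t * ct K (1 / ((j : ℝ) + 1) * t) = 0 := by
    intro j
    have hε : 0 < 1 / ((j : ℝ) + 1) := by positivity
    have hε1 : 1 / ((j : ℝ) + 1) ≤ 1 := by
      rw [div_le_one (by positivity)]
      have : (0 : ℝ) ≤ j := Nat.cast_nonneg j
      linarith
    have hK' := (hK.dil hε).mono (show 1 / ((j : ℝ) + 1) * (κ / 2) ≤ κ / 2 by nlinarith)
    have h2 := weight_gap1 hκ hHm hHe hHb hz ha hlam hlen hdisj hσ hsgn hdiv hK' (fun t => by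
      rw [TK.ct_dil K hε]
      exact hpos _)
    filter_upwards [h2] with t ht
    rwa [TK.ct_dil K hε] at ht
  have h2 : ∀ᵐ t, ∀ j : ℕ, H t * ct K (1 / ((j : ℝ) + 1) * t) = 0 := ae_all_iff.mpr h1
  filter_upwards [h2] with t ht
  by_contra hne
  have h3 : Tendsto (fun j : ℕ => 1 / ((j : ℝ) + 1) * t) atTop (𝓝 (0 * t)) :=
    tendsto_one_div_add_atTop_nhds_zero_nat.mul_const t
  rw [zero_mul] at h3
  have h4 := (hK.ct_cont.tendsto 0).comp h3
  have h5 : ∀ j : ℕ, ct K (1 / ((j : ℝ) + 1) * t) = 0 := fun j =>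
    (mul_eq_zero.mp (ht j)).resolve_left hne
  have h6 : Tendsto (fun _ : ℕ => (0 : ℝ)) atTop (𝓝 (ct K 0)) := by
    refine h4.congr fun j => ?_
    simp only [Function.comp]
    exact h5 j
  have h7 := tendsto_nhds_unique h6 tendsto_const_nhds
  linarith

/-- the discrepancy of a limit is periodic -/
theorem sparse_periodic1 {A' : ℝ → ℝ} {C0 : ℝ} (hκ : 0 < κ) (hA' : Monotone A')
    (hneg : ∀ y, y < 0 → A' y = 0) (hb : ∀ y, |A' y| ≤ C0 * (1 + y ^ 2))
    (hm : ∀ K, TK κ K → ∀ h, 0 < h →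
      ∫ y, A' y * (ct K (y + h) - ct K (y - h)) = ∫ y, AG y * (ct K (y + h) - ct K (y - h)))
    (ha : ∀ n, 0 < a n) (hlam : 0 < lam) (hlen : ∀ n, a n + lam ≤ b n)
    (hdisj : ∀ n k, n ≠ k → ∀ x : ℝ, a n < x → x < b n → a k < x → x < b k → False)
    (hdiv : ¬ Summable (fun n => ((b n - a n) / b n) ^ 2))
    {ℓ : ℝ} (hℓ : 0 < ℓ) (hℓ2 : ℓ ≤ lam / 2) (hσ : ∀ n, σ n = 1 ∨ σ n = -1)
    (hyp : ∀ n α, a n < α → α + ℓ < b n → ContinuousAt A' α →
      0 ≤ σ n * (A' (α + ℓ) - A' α - 2 * (gp (α + ℓ) - gp α))) :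
    ∀ᵐ x, dE A' (x + ℓ) = dE A' x := by
  set h : ℝ := ℓ / 2 with hh
  have hh0 : 0 < h := by rw [hh]; positivity
  have hEm := dE_meas hA'
  have hEb := dE_bound hb
  have hC0 : 0 ≤ C0 := by
    have := (abs_nonneg _).trans (hb 0)
    simpa using this
  set H : ℝ → ℝ := fun y => dE A' (y + h) - dE A' (y - h) with hH
  have hHm : Measurable H := (hEm.comp (by fun_prop)).sub (hEm.comp (by fun_prop))
  have hHe : ∀ y, H (-y) = H y := by
    intro y
    simp only [hH]
    have a1 : dE A' (-y + h) = -dE A' (y - h) := by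
      rw [← dE_odd]
      congr 1
      ring
    have a2 : dE A' (-y - h) = -dE A' (y + h) := by
      rw [← dE_odd]
      congr 1
      ring
    rw [a1, a2]
    ring
  set B : ℝ := (2 * C0 + 4) * (4 * (1 + h ^ 2)) with hB
  have hHb : ∀ y, |H y| ≤ B * (1 + y ^ 2) := by
    intro y
    simp only [hH]
    refine (abs_sub _ _).trans ?_
    have h1 := hEb (y + h)
    have h2 := hEb (y - h)
    have h3 : 1 + (y + h) ^ 2 ≤ 2 * (1 + h ^ 2) * (1 + y ^ 2) := by
      nlinarith [sq_nonneg (y - h), sq_nonneg (y * h), sq_nonneg y, sq_nonneg h]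
    have h4 : 1 + (y - h) ^ 2 ≤ 2 * (1 + h ^ 2) * (1 + y ^ 2) := by
      nlinarith [sq_nonneg (y + h), sq_nonneg (y * h), sq_nonneg y, sq_nonneg h]
    have h5 : (2 * C0 + 4) * (1 + (y + h) ^ 2) ≤ (2 * C0 + 4) * (2 * (1 + h ^ 2) * (1 + y ^ 2)) :=
      mul_le_mul_of_nonneg_left h3 (by positivity)
    have h6 : (2 * C0 + 4) * (1 + (y - h) ^ 2) ≤ (2 * C0 + 4) * (2 * (1 + h ^ 2) * (1 + y ^ 2)) :=
      mul_le_mul_of_nonneg_left h4 (by positivity)
    rw [hB]
    linarith
  have hcont : ∀ᵐ y : ℝ, ContinuousAt A' (y - h) := by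
    have hcn := hA'.countable_not_continuousAt
    have h1 : ({y : ℝ | ¬ ContinuousAt A' (y - h)}).Countable := by
      have h2 : {y : ℝ | ¬ ContinuousAt A' (y - h)} ⊆
          (fun u => u + h) '' {x | ¬ContinuousAt A' x} := by
        intro y hy
        exact ⟨y - h, hy, by simp⟩
      exact (hcn.image _).mono h2
    exact h1.ae_notMem volume |>.mono fun x hx => by
      by_contra hc
      exact hx hc
  have hsgn : ∀ n, ∀ᵐ t : ℝ, a n + h < t → t < b n - h → 0 ≤ σ n * H t := by
    intro n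
    filter_upwards [hcont] with t ht h1 h2
    have h3 := hyp n (t - h) (by linarith) (by rw [hh] at h2 ⊢; linarith) ht
    have e1 : t - h + ℓ = t + h := by rw [hh]; ring
    rw [e1] at h3
    have hpos1 : 0 < t - h := by linarith [ha n]
    have hpos2 : 0 < t + h := by linarith
    simp only [hH]
    rw [dE_pos hneg hpos2, dE_pos hneg hpos1]
    unfold AG
    rw [if_neg (by linarith), if_neg (by linarith)]
    refine h3.trans (le_of_eq ?_)
    ring
  have hz : ∀ K, TK κ K → ∫ y, H y * ct K y = 0 := fun K hK =>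
    annih hK hA' hb h (hm K hK h hh0)
  have hdiv' : ¬ Summable (fun n => ((b n - h - (a n + h)) / (b n - h)) ^ 2) := by
    intro hs
    apply hdiv
    refine Summable.of_nonneg_of_le (fun n => sq_nonneg _) (fun n => ?_) (hs.mul_left 4)
    have hbn : 0 < b n := by linarith [ha n, hlen n]
    have hbh : 0 < b n - h := by
      have := ha n
      have := hlen n
      linarith
    have h1 : (b n - a n) / b n ≤ 2 * ((b n - h - (a n + h)) / (b n - h)) := by
      rw [← mul_div_assoc, div_le_div_iff₀ hbn hbh]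
      have h2 : b n - a n ≤ 2 * (b n - h - (a n + h)) := by
        have := hlen n
        rw [hh]
        linarith
      have h3 : 0 ≤ b n - a n := by linarith [hlen n]
      nlinarith
    have h4 : 0 ≤ (b n - a n) / b n := div_nonneg (by linarith [hlen n]) hbn.le
    have h5 := pow_le_pow_left₀ h4 h1 2
    refine h5.trans (le_of_eq ?_)
    ring
  have hfin := even_gap1 (a := fun n => a n + h) (b := fun n => b n - h) (lam := lam / 2)
    hκ hHm hHe hHb hz (fun n => by linarith [ha n]) (by positivity)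
    (fun n => by
      have := hlen n
      rw [hh]
      linarith)
    (fun n k hnk x h1 h2 h3 h4 => hdisj n k hnk x (by linarith) (by linarith) (by linarith)
      (by linarith)) hσ hsgn hdiv'
  have h1 : ∀ᵐ y, dE A' (y + h) = dE A' (y - h) := by
    filter_upwards [hfin] with y hy
    simp only [hH] at hy
    linarith
  have h2 := (measurePreserving_add_right (volume : Measure ℝ) h).quasiMeasurePreserving.ae h1
  filter_upwards [h2] with x hx
  have e1 : x + h + h = x + ℓ := by rw [hh]; ring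
  have e2 : x + h - h = x := by ring
  rw [e1, e2] at hx
  exact hx

/-- **Rigidity from one-sided information on a long system of intervals.** -/
theorem sparse_rigid1 {A : ℝ → ℝ → ℝ} {T0 C0 : ℝ} (hκ : 0 < κ)
    (hmono : ∀ T, T0 ≤ T → Monotone (A T))
    (hneg : ∀ T y, y < 0 → A T y = 0) (hb : ∀ T, T0 ≤ T → ∀ y, |A T y| ≤ C0 * (1 + y ^ 2))
    (hdiag : ∀ ε, 0 < ε → ∀ᶠ T in atTop, 1 - ε ≤ A T 0)
    (hmont : ∀ K, TK κ K → ∀ h, 0 < h →
      Tendsto (fun T => ∫ y, A T y * (ct K (y + h) - ct K (y - h))) atTop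
        (𝓝 (∫ y, AG y * (ct K (y + h) - ct K (y - h)))))
    {W : ℝ → ℝ → ℝ → ℝ}
    (hW1 : ∀ T, T0 ≤ T → ∀ a ℓ, 0 < a → 0 < ℓ → A T (a + ℓ) - A T a ≤ W T a ℓ)
    (hW2 : ∀ T, T0 ≤ T → ∀ a ℓ η, 0 < a → 0 < ℓ → 0 < η → W T a ℓ ≤ A T (a + ℓ) - A T (a - η))
    {l : Filter ℝ} (hl : l ≤ atTop)
    (ha : ∀ n, 0 < a n) (hlam : 0 < lam) (hlen : ∀ n, a n + lam ≤ b n)
    (hdisj : ∀ n k, n ≠ k → ∀ x : ℝ, a n < x → x < b n → a k < x → x < b k → False)
    (hdiv : ¬ Summable (fun n => ((b n - a n) / b n) ^ 2))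
    (hσ : ∀ n, σ n = 1 ∨ σ n = -1)
    (hyp : ∀ n α ℓ, a n < α → 0 < ℓ → α + ℓ < b n → ∀ ε, 0 < ε → ∀ᶠ T in l,
      -ε ≤ σ n * (W T α ℓ - 2 * (gp (α + ℓ) - gp α))) :
    ∀ x, Tendsto (fun T => A T x) l (𝓝 (AG x)) := by
  intro x
  rw [tendsto_iff_ultrafilter]
  intro g hg
  have hgt : (g : Filter ℝ) ≤ atTop := hg.trans hl
  have hT : ∀ᶠ T in (g : Filter ℝ), T0 ≤ T := hgt (eventually_ge_atTop _)
  have hex : ∀ y, ∃ L, Tendsto (fun T => A T y) (g : Filter ℝ) (𝓝 L) := by
    intro y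
    have h1 : ((g.map fun T => A T y : Ultrafilter ℝ) : Filter ℝ) ≤
        𝓟 (Set.Icc (-(C0 * (1 + y ^ 2))) (C0 * (1 + y ^ 2))) := by
      rw [le_principal_iff]
      have h2 : ∀ᶠ T in (g : Filter ℝ), A T y ∈
          Set.Icc (-(C0 * (1 + y ^ 2))) (C0 * (1 + y ^ 2)) := by
        filter_upwards [hT] with T hT1
        exact abs_le.1 (hb T hT1 y)
      exact h2
    obtain ⟨L, _, hL⟩ := isCompact_Icc.ultrafilter_le_nhds _ h1
    exact ⟨L, hL⟩
  choose A' hlim using hex
  have hA' : Monotone A' := by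
    intro a b hab
    refine le_of_tendsto_of_tendsto (hlim a) (hlim b) ?_
    filter_upwards [hT] with T hT1 using hmono T hT1 hab
  have hneg' : ∀ y, y < 0 → A' y = 0 := by
    intro y hy
    refine tendsto_nhds_unique (hlim y) ?_
    have : (fun T => A T y) = fun _ => 0 := funext fun T => hneg T y hy
    rw [this]
    exact tendsto_const_nhds
  have hb' : ∀ y, |A' y| ≤ C0 * (1 + y ^ 2) := by
    intro y
    refine le_of_tendsto (hlim y).abs ?_
    filter_upwards [hT] with T hT1 using hb T hT1 y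
  have h0 : 1 ≤ A' 0 := by
    refine le_of_forall_pos_le_add fun ε hε => ?_
    have h1 : ∀ᶠ T in (g : Filter ℝ), 1 - ε ≤ A T 0 := hgt (hdiag ε hε)
    have := ge_of_tendsto (hlim 0) h1
    linarith
  have hm : ∀ K, TK κ K → ∀ h, 0 < h →
      ∫ y, A' y * (ct K (y + h) - ct K (y - h)) = ∫ y, AG y * (ct K (y + h) - ct K (y - h)) := by
    intro K hK h hh
    obtain ⟨D, hD⟩ := test_decay hK h
    refine lim_int hmono hb ?_ hD (hmont K hK h hh) hgt hA' hlim
    exact (hK.ct_cont.measurable.comp (by fun_prop)).sub (hK.ct_cont.measurable.comp (by fun_prop))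
  have hwin : ∀ n α ℓ, a n < α → 0 < ℓ → α + ℓ < b n → ContinuousAt A' α →
      0 ≤ σ n * (A' (α + ℓ) - A' α - 2 * (gp (α + ℓ) - gp α)) := by
    intro n α ℓ h1 h2 h3 hca
    have hα : 0 < α := (ha n).trans h1
    rcases hσ n with hs | hs
    · rw [hs, one_mul]
      refine le_of_forall_pos_le_add fun ε hε => ?_
      have h4 : ∀ᶠ z in 𝓝 α, A' α - ε / 2 < A' z := hca.eventually_const_lt (by linarith)
      obtain ⟨δ, hδ, h5⟩ := Metric.eventually_nhds_iff.1 h4
      have h6 := h5 (show dist (α - δ / 2) α < δ by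
        rw [Real.dist_eq, abs_lt]; constructor <;> linarith)
      have h7 : 2 * (gp (α + ℓ) - gp α) - ε / 2 ≤ A' (α + ℓ) - A' (α - δ / 2) := by
        refine ge_of_tendsto ((hlim (α + ℓ)).sub (hlim (α - δ / 2))) ?_
        filter_upwards [hT, hg (hyp n α ℓ h1 h2 h3 (ε / 2) (by positivity))] with T hT1 hT2
        have h8 := hW2 T hT1 α ℓ (δ / 2) hα h2 (by positivity)
        rw [hs, one_mul] at hT2
        linarith
      linarith
    · rw [hs]
      refine le_of_forall_pos_le_add fun ε hε => ?_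
      have h7 : A' (α + ℓ) - A' α ≤ 2 * (gp (α + ℓ) - gp α) + ε := by
        refine le_of_tendsto ((hlim (α + ℓ)).sub (hlim α)) ?_
        filter_upwards [hT, hg (hyp n α ℓ h1 h2 h3 ε hε)] with T hT1 hT2
        have h8 := hW1 T hT1 α ℓ hα h2
        rw [hs] at hT2
        linarith
      linarith
  set l1 : ℝ := lam / 4 with hl1
  set l2 : ℝ := lam / 4 * √2 with hl2
  have hl10 : 0 < l1 := by positivity
  have hl20 : 0 < l2 := by positivity
  have hs2 : √2 ≤ 2 := by
    rw [Real.sqrt_le_left (by norm_num)]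
    norm_num
  have hirr : Irrational (l2 / l1) := by
    have : l2 / l1 = √2 := by
      rw [hl1, hl2]
      field_simp
    rw [this]
    exact irrational_sqrt_two
  have p1 := sparse_periodic1 hκ hA' hneg' hb' hm ha hlam hlen hdisj hdiv hl10
    (by rw [hl1]; linarith) hσ (fun n α h1 h2 h3 => hwin n α l1 h1 hl10 h2 h3)
  have p2 := sparse_periodic1 hκ hA' hneg' hb' hm ha hlam hlen hdisj hdiv hl20
    (by rw [hl2]; nlinarith) hσ (fun n α h1 h2 h3 => hwin n α l2 h1 hl20 h2 h3)
  have := limit_eq hA' hneg' hb' h0 hirr p2 p1 x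
  rw [← this]
  exact hlim x

end

end Q97.BG
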