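import Mathlib

set_option autoImplicit false

open MeasureTheory Filter Topology Complex Set

namespace Q97.BG

noncomputable section

/-- quotient -/
def qt (α β : ℝ) (z : ℂ) : ℂ := (z - β) / (z - α)

theorem sub_ne {z : ℂ} (hz : 0 < z.im) (α : ℝ) : z - α ≠ 0 := by
  intro h
  have := congrArg Complex.im h
  simp at this
  linarith

theorem qt_im {α β : ℝ} {z : ℂ} : (qt α β z).im = z.im * (β - α) / ‖z - α‖ ^ 2 := by
  unfold qt
  rw [Complex.div_im, ← Complex.normSq_eq_norm_sq]
  simp only [Complex.sub_re, Complex.sub_im, Complex.ofReal_re, Complex.ofReal_im, sub_zero]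
  ring

theorem qt_re {α β : ℝ} {z : ℂ} :
    (qt α β z).re = ((z.re - β) * (z.re - α) + z.im ^ 2) / ‖z - α‖ ^ 2 := by
  unfold qt
  rw [Complex.div_re, ← Complex.normSq_eq_norm_sq]
  simp only [Complex.sub_re, Complex.sub_im, Complex.ofReal_re, Complex.ofReal_im, sub_zero]
  ring

theorem qt_im_pos {α β : ℝ} (h : α < β) {z : ℂ} (hz : 0 < z.im) : 0 < (qt α β z).im := by
  rw [qt_im]
  have := norm_pos_iff.mpr (sub_ne hz α)
  have h2 : 0 < β - α := by linarith
  positivity

theorem sin_arg_qt {α β : ℝ} {z : ℂ} (hz : 0 < z.im) :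
    Real.sin (qt α β z).arg = z.im * (β - α) / (‖z - α‖ * ‖z - β‖) := by
  have ha := norm_pos_iff.mpr (sub_ne hz α)
  have hb := norm_pos_iff.mpr (sub_ne hz β)
  rw [Complex.sin_arg, qt_im]
  unfold qt
  rw [norm_div]
  field_simp

theorem arg_qt_nonneg {α β : ℝ} (h : α < β) {z : ℂ} (hz : 0 < z.im) : 0 ≤ (qt α β z).arg :=
  Complex.arg_nonneg_iff.mpr (qt_im_pos h hz).le

theorem arg_qt_lower {α β : ℝ} (h : α < β) {z : ℂ} (hz : 0 < z.im) :
    z.im * (β - α) / (‖z - α‖ * ‖z - β‖) ≤ (qt α β z).arg := by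
  rw [← sin_arg_qt hz]
  exact Real.sin_le (arg_qt_nonneg h hz)

theorem arg_qt_upper {α β d : ℝ} (h : α < β) {z : ℂ} (hz : 0 < z.im) (hd : 0 < d)
    (h1 : d ≤ |z.re - α|) (h2 : d ≤ |z.re - β|) (hout : z.re ≤ α ∨ β ≤ z.re) :
    (qt α β z).arg ≤ Real.pi / 2 * (z.im * (β - α) / d ^ 2) := by
  have ha := norm_pos_iff.mpr (sub_ne hz α)
  have hb := norm_pos_iff.mpr (sub_ne hz β)
  have hre : 0 ≤ (qt α β z).re := by
    rw [qt_re]
    apply div_nonneg _ (by positivity)
    have : 0 ≤ (z.re - β) * (z.re - α) := by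
      rcases hout with h3 | h3
      · exact mul_nonneg_of_nonpos_of_nonpos (by linarith) (by linarith)
      · exact mul_nonneg (by linarith) (by linarith)
    positivity
  have harg : (qt α β z).arg ≤ Real.pi / 2 :=
    (abs_le.mp (Complex.abs_arg_le_pi_div_two_iff.mpr hre)).2
  have h3 := Real.mul_le_sin (arg_qt_nonneg h hz) harg
  rw [sin_arg_qt hz] at h3
  have hna : d ≤ ‖z - α‖ := by
    refine h1.trans ?_
    have := Complex.abs_re_le_norm (z - α)
    simpa using this
  have hnb : d ≤ ‖z - β‖ := by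
    refine h2.trans ?_
    have := Complex.abs_re_le_norm (z - β)
    simpa using this
  have h4 : z.im * (β - α) / (‖z - α‖ * ‖z - β‖) ≤ z.im * (β - α) / d ^ 2 := by
    apply div_le_div_of_nonneg_left (mul_nonneg hz.le (by linarith)) (by positivity)
    rw [sq]
    exact mul_le_mul hna hnb hd.le ha.le
  have hπ := Real.pi_pos
  have h5 : (qt α β z).arg = Real.pi / 2 * (2 / Real.pi * (qt α β z).arg) := by
    field_simp
  rw [h5]
  exact mul_le_mul_of_nonneg_left (h3.trans h4) (by positivity)

theorem arg_qt_le_pi {α β : ℝ} (z : ℂ) : (qt α β z).arg ≤ Real.pi := Complex.arg_le_pi _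

/-- the outer factor of one interval -/
def fac (α β c : ℝ) (z : ℂ) : ℂ := cexp ((c / Real.pi : ℝ) * (-I * Complex.log (qt α β z)))

theorem fac_norm (α β c : ℝ) (z : ℂ) :
    ‖fac α β c z‖ = Real.exp (c / Real.pi * (qt α β z).arg) := by
  unfold fac
  rw [Complex.norm_exp, Complex.re_ofReal_mul]
  congr 2
  simp [Complex.log_im]

theorem fac_diff {α β c : ℝ} (h : α < β) {z : ℂ} (hz : 0 < z.im) :
    DifferentiableAt ℂ (fac α β c) z := by
  unfold fac
  have h1 : DifferentiableAt ℂ (qt α β) z := by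
    unfold qt
    exact DifferentiableAt.div (by fun_prop) (by fun_prop) (sub_ne hz α)
  have h2 : qt α β z ∈ Complex.slitPlane := by
    rw [Complex.mem_slitPlane_iff]
    right
    exact (qt_im_pos h hz).ne'
  exact ((h1.clog h2).const_mul (-I)).const_mul _ |>.cexp

section

variable {H : ℂ → ℂ} {B c : ℝ} {m r b : ℕ → ℝ}

/-- the product of the outer factors, shifted -/
def prd (m r : ℕ → ℝ) (c ε : ℝ) (N : ℕ) (z : ℂ) : ℂ :=
  ∏ n ∈ Finset.range N, fac (m n - r n / 16) (m n + r n / 16) (c * r n) (z + ε * I)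

theorem prd_norm (m r : ℕ → ℝ) (c ε : ℝ) (N : ℕ) (z : ℂ) :
    ‖prd m r c ε N z‖ = Real.exp (∑ n ∈ Finset.range N,
      c * r n / Real.pi * (qt (m n - r n / 16) (m n + r n / 16) (z + ε * I)).arg) := by
  unfold prd
  rw [norm_prod, Real.exp_sum]
  exact Finset.prod_congr rfl fun n _ => fac_norm _ _ _ _

theorem shift_im (z : ℂ) (ε : ℝ) : (z + ε * I).im = z.im + ε := by simp

theorem shift_re (z : ℂ) (ε : ℝ) : (z + ε * I).re = z.re := by simp

theorem prd_diff (hr : ∀ n, 0 < r n) {ε : ℝ} (hε : 0 < ε) (N : ℕ) {z : ℂ} (hz : 0 ≤ z.im) :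
    DifferentiableAt ℂ (prd m r c ε N) z := by
  unfold prd
  apply DifferentiableAt.fun_finsetProd
  intro n _
  have h1 : DifferentiableAt ℂ (fac (m n - r n / 16) (m n + r n / 16) (c * r n)) (z + ε * I) := by
    apply fac_diff
    · linarith [hr n]
    · rw [shift_im]; linarith
  have h2 : DifferentiableAt ℂ (fun z : ℂ => z + ε * I) z := by fun_prop
  exact DifferentiableAt.comp (g := fac (m n - r n / 16) (m n + r n / 16) (c * r n))
    (f := fun z : ℂ => z + ε * I) z h1 h2

/-- far from the interval the factor is close to one -/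
theorem term_far (hr : ∀ n, 0 < r n) (hc : 0 < c) {ε : ℝ} (hε : 0 < ε) (n : ℕ) {x : ℝ}
    (hx : r n / 8 ≤ |x - m n|) :
    c * r n / Real.pi * (qt (m n - r n / 16) (m n + r n / 16) ((x : ℂ) + ε * I)).arg ≤
      16 * c * ε := by
  have hrn := hr n
  have hπ := Real.pi_pos
  have him : ((x : ℂ) + ε * I).im = ε := by simp
  have hre : ((x : ℂ) + ε * I).re = x := by simp
  have h := arg_qt_upper (α := m n - r n / 16) (β := m n + r n / 16) (d := r n / 16)
    (z := (x : ℂ) + ε * I) (by linarith) (by rw [him]; exact hε) (by positivity)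
    (by
      rw [hre]
      rcases le_total 0 (x - m n) with h0 | h0
      · rw [abs_of_nonneg h0] at hx
        rw [abs_of_nonneg (by linarith)]
        linarith
      · rw [abs_of_nonpos h0] at hx
        rw [abs_of_nonpos (by linarith)]
        linarith)
    (by
      rw [hre]
      rcases le_total 0 (x - m n) with h0 | h0
      · rw [abs_of_nonneg h0] at hx
        rw [abs_of_nonneg (by linarith)]
        linarith
      · rw [abs_of_nonpos h0] at hx
        rw [abs_of_nonpos (by linarith)]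
        linarith)
    (by
      rw [hre]
      rcases le_total 0 (x - m n) with h0 | h0
      · rw [abs_of_nonneg h0] at hx
        right; linarith
      · rw [abs_of_nonpos h0] at hx
        left; linarith)
  rw [him] at h
  have h2 : c * r n / Real.pi * (Real.pi / 2 *
      (ε * (m n + r n / 16 - (m n - r n / 16)) / (r n / 16) ^ 2)) = 16 * c * ε := by
    field_simp
    ring
  rw [← h2]
  exact mul_le_mul_of_nonneg_left h (by positivity)

theorem term_near (hr : ∀ n, 0 < r n) (hc : 0 < c) (n : ℕ) (z : ℂ) :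
    c * r n / Real.pi * (qt (m n - r n / 16) (m n + r n / 16) z).arg ≤ c * r n := by
  have hrn := hr n
  have hπ := Real.pi_pos
  calc c * r n / Real.pi * (qt (m n - r n / 16) (m n + r n / 16) z).arg
      ≤ c * r n / Real.pi * Real.pi :=
        mul_le_mul_of_nonneg_left (arg_qt_le_pi z) (by positivity)
    _ = c * r n := by field_simp

/-- the bound on the real line -/
theorem real_bound (hB : 0 ≤ B) (hc : 0 < c) (hbd : ∀ z : ℂ, 0 ≤ z.im → ‖H z‖ ≤ B)
    (hr : ∀ n, 0 < r n)
    (hdisj : ∀ n k, n ≠ k → ∀ x : ℝ, |x - m n| < r n / 8 → |x - m k| < r k / 8 → False)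
    (hsmall : ∀ n, ∀ x : ℝ, |x - m n| < r n / 8 → ‖H x‖ ≤ B * Real.exp (-(c * r n)))
    {ε : ℝ} (hε : 0 < ε) (N : ℕ) (x : ℝ) :
    ‖H x * prd m r c ε N x‖ ≤ B * Real.exp (16 * c * ε * N) := by
  rw [norm_mul, prd_norm]
  by_cases h : ∃ k ∈ Finset.range N, |x - m k| < r k / 8
  · obtain ⟨k, hk, hkx⟩ := h
    have hsum : ∑ n ∈ Finset.range N, c * r n / Real.pi *
        (qt (m n - r n / 16) (m n + r n / 16) ((x : ℂ) + ε * I)).arg ≤
        c * r k + 16 * c * ε * N := by
      rw [← Finset.add_sum_erase _ _ hk]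
      refine add_le_add (term_near hr hc k _) ?_
      calc ∑ n ∈ (Finset.range N).erase k, c * r n / Real.pi *
          (qt (m n - r n / 16) (m n + r n / 16) ((x : ℂ) + ε * I)).arg
          ≤ ∑ n ∈ (Finset.range N).erase k, 16 * c * ε := by
            apply Finset.sum_le_sum
            intro n hn
            apply term_far hr hc hε
            by_contra hcon
            exact hdisj n k (Finset.ne_of_mem_erase hn) x (not_le.mp hcon) hkx
        _ ≤ 16 * c * ε * N := by
            rw [Finset.sum_const, nsmul_eq_mul, mul_comm]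
            apply mul_le_mul_of_nonneg_left _ (by positivity)
            have := Finset.card_erase_le (s := Finset.range N) (a := k)
            rw [Finset.card_range] at this
            exact_mod_cast this
    calc ‖H x‖ * Real.exp (∑ n ∈ Finset.range N, c * r n / Real.pi *
        (qt (m n - r n / 16) (m n + r n / 16) ((x : ℂ) + ε * I)).arg)
        ≤ (B * Real.exp (-(c * r k))) * Real.exp (c * r k + 16 * c * ε * N) := by
          apply mul_le_mul (hsmall k x hkx) (Real.exp_le_exp.2 hsum) (Real.exp_pos _).le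
          positivity
      _ = B * Real.exp (16 * c * ε * N) := by
          rw [mul_assoc, ← Real.exp_add]
          congr 2
          ring
  · push Not at h
    have hsum : ∑ n ∈ Finset.range N, c * r n / Real.pi *
        (qt (m n - r n / 16) (m n + r n / 16) ((x : ℂ) + ε * I)).arg ≤ 16 * c * ε * N := by
      calc ∑ n ∈ Finset.range N, c * r n / Real.pi *
          (qt (m n - r n / 16) (m n + r n / 16) ((x : ℂ) + ε * I)).arg
          ≤ ∑ n ∈ Finset.range N, 16 * c * ε := by
            apply Finset.sum_le_sum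
            intro n hn
            exact term_far hr hc hε n (h n hn)
        _ = 16 * c * ε * N := by
            rw [Finset.sum_const, nsmul_eq_mul, mul_comm, Finset.card_range]
    exact mul_le_mul (hbd x (by simp)) (Real.exp_le_exp.2 hsum) (Real.exp_pos _).le hB

/-- the bound in the half-plane -/
theorem half_bound (hd : ∀ z : ℂ, 0 ≤ z.im → DifferentiableAt ℂ H z) (hB : 0 ≤ B) (hc : 0 < c)
    (hbd : ∀ z : ℂ, 0 ≤ z.im → ‖H z‖ ≤ B) (hr : ∀ n, 0 < r n)
    (hdisj : ∀ n k, n ≠ k → ∀ x : ℝ, |x - m n| < r n / 8 → |x - m k| < r k / 8 → False)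
    (hsmall : ∀ n, ∀ x : ℝ, |x - m n| < r n / 8 → ‖H x‖ ≤ B * Real.exp (-(c * r n)))
    {ε : ℝ} (hε : 0 < ε) (N : ℕ) {z : ℂ} (hz : 0 < z.im) :
    ‖H z * prd m r c ε N z‖ ≤ B * Real.exp (16 * c * ε * N) := by
  set f : ℂ → ℂ := fun w => H (I * w) * prd m r c ε N (I * w) with hf
  have him : ∀ w : ℂ, (I * w).im = w.re := by intro w; simp
  have hdf : ∀ w : ℂ, 0 ≤ w.re → DifferentiableAt ℂ f w := by
    intro w hw
    have h1 : DifferentiableAt ℂ (fun w : ℂ => I * w) w := by fun_prop
    have h2 : DifferentiableAt ℂ H (I * w) := hd _ (by rw [him]; exact hw)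
    have h3 : DifferentiableAt ℂ (prd m r c ε N) (I * w) := prd_diff hr hε N (by rw [him]; exact hw)
    exact (DifferentiableAt.comp (g := H) (f := fun w : ℂ => I * w) w h2 h1).mul
      (DifferentiableAt.comp (g := prd m r c ε N) (f := fun w : ℂ => I * w) w h3 h1)
  have hdc : DiffContOnCl ℂ f {w | 0 < w.re} := by
    apply DifferentiableOn.diffContOnCl
    have hcl : closure {w : ℂ | 0 < w.re} ⊆ {w : ℂ | 0 ≤ w.re} := by
      apply closure_minimal
      · intro w hw
        exact (show 0 < w.re from hw).le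
      · exact isClosed_le continuous_const Complex.continuous_re
    exact fun w hw => (hdf w (hcl hw)).differentiableWithinAt
  set M : ℝ := B * Real.exp (∑ n ∈ Finset.range N, c * r n) with hM
  have hfb : ∀ w : ℂ, 0 ≤ w.re → ‖f w‖ ≤ M := by
    intro w hw
    simp only [hf]
    rw [norm_mul, prd_norm]
    apply mul_le_mul (hbd _ (by rw [him]; exact hw)) _ (Real.exp_pos _).le hB
    apply Real.exp_le_exp.2
    exact Finset.sum_le_sum fun n _ => term_near hr hc n _
  have key := PhragmenLindelof.right_half_plane_of_bounded_on_real (f := f)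
    (C := B * Real.exp (16 * c * ε * N)) hdc ⟨1, by norm_num, 0, ?_⟩ ?_ ?_
    (z := -I * z) (by simp; exact hz.le)
  · have e : I * (-I * z) = z := by
      rw [← mul_assoc, mul_neg, Complex.I_mul_I, neg_neg, one_mul]
    simp only [hf] at key
    rw [e] at key
    exact key
  · refine Asymptotics.IsBigO.of_bound M ?_
    refine Filter.mem_inf_of_right ?_
    rw [Filter.mem_principal]
    intro w hw
    have hw' : 0 < w.re := hw
    rw [Set.mem_ofPred_eq, zero_mul, Real.exp_zero, norm_one, mul_one]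
    exact hfb w hw'.le
  · refine isBoundedUnder_of_eventually_le (a := M) ?_
    filter_upwards [eventually_ge_atTop 0] with x hx
    exact hfb x (by simpa using hx)
  · intro x
    have e : I * ((x : ℂ) * I) = ((-x : ℝ) : ℂ) := by
      rw [mul_comm (x : ℂ) I, ← mul_assoc, Complex.I_mul_I]
      push_cast
      ring
    simp only [hf]
    rw [e]
    exact real_bound hB hc hbd hr hdisj hsmall hε N (-x)

/-- **Vanishing.** -/
theorem vanish (hd : ∀ z : ℂ, 0 ≤ z.im → DifferentiableAt ℂ H z) (hB : 0 ≤ B) (hc : 0 < c)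
    (hbd : ∀ z : ℂ, 0 ≤ z.im → ‖H z‖ ≤ B) (hr : ∀ n, 0 < r n)
    (hmb : ∀ n, |m n| + r n ≤ b n) {lam : ℝ} (hlam : 0 < lam) (hb1 : ∀ n, lam ≤ b n)
    (hdisj : ∀ n k, n ≠ k → ∀ x : ℝ, |x - m n| < r n / 8 → |x - m k| < r k / 8 → False)
    (hsmall : ∀ n, ∀ x : ℝ, |x - m n| < r n / 8 → ‖H x‖ ≤ B * Real.exp (-(c * r n)))
    (hdiv : ¬ Summable (fun n => (r n / b n) ^ 2)) {z : ℂ} (hz : 0 < z.im) : H z = 0 := by
  have hπ := Real.pi_pos
  set D : ℝ := (‖z‖ + 1) / lam + 1 with hD
  have hD0 : 0 < D := by positivity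
  set c' : ℝ := c * z.im / (8 * Real.pi * D ^ 2) with hc'
  have hc'0 : 0 < c' := by positivity
  have hlow : ∀ (ε : ℝ), 0 < ε → ε ≤ 1 → ∀ n, c' * (r n / b n) ^ 2 ≤
      c * r n / Real.pi * (qt (m n - r n / 16) (m n + r n / 16) (z + ε * I)).arg := by
    intro ε hε hε1 n
    have hrn := hr n
    have hbn : 0 < b n := by linarith [hb1 n]
    have hzi : 0 < (z + ε * I).im := by rw [shift_im]; linarith
    have h1 := arg_qt_lower (α := m n - r n / 16) (β := m n + r n / 16) (by linarith) hzi
    have hnε : ‖(ε : ℂ) * I‖ = ε := by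
      rw [norm_mul, Complex.norm_I, mul_one, Complex.norm_real, Real.norm_of_nonneg hε.le]
    have hnorm : ∀ u : ℝ, |u| ≤ b n → ‖z + ε * I - u‖ ≤ D * b n := by
      intro u hu
      have h2 : ‖z + ε * I - u‖ ≤ ‖z‖ + ε + |u| := by
        refine (norm_sub_le _ _).trans ?_
        rw [Complex.norm_real, Real.norm_eq_abs]
        refine add_le_add ?_ le_rfl
        refine (norm_add_le _ _).trans ?_
        rw [hnε]
      have h3 := hb1 n
      have h4 := norm_nonneg z
      have h5 : ‖z‖ + 1 ≤ (‖z‖ + 1) / lam * b n := by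
        rw [div_mul_eq_mul_div, le_div_iff₀ hlam]
        exact mul_le_mul_of_nonneg_left h3 (by positivity)
      rw [hD]
      linarith
    have hα : |m n - r n / 16| ≤ b n := by
      refine (abs_sub _ _).trans ?_
      rw [abs_of_pos (by positivity : 0 < r n / 16)]
      linarith [hmb n]
    have hβ : |m n + r n / 16| ≤ b n := by
      refine (abs_add_le _ _).trans ?_
      rw [abs_of_pos (by positivity : 0 < r n / 16)]
      linarith [hmb n]
    have ha := norm_pos_iff.mpr (sub_ne hzi (m n - r n / 16))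
    have hb := norm_pos_iff.mpr (sub_ne hzi (m n + r n / 16))
    have h5 : z.im * (r n / 8) / (D * b n) ^ 2 ≤
        (z + ε * I).im * (m n + r n / 16 - (m n - r n / 16)) /
        (‖z + ε * I - ((m n - r n / 16 : ℝ) : ℂ)‖ * ‖z + ε * I - ((m n + r n / 16 : ℝ) : ℂ)‖) := by
      apply div_le_div₀
      · rw [shift_im]
        have : 0 ≤ z.im + ε := by linarith
        have h6 : m n + r n / 16 - (m n - r n / 16) = r n / 8 := by ring
        rw [h6]
        positivity
      · rw [shift_im]
        have h6 : m n + r n / 16 - (m n - r n / 16) = r n / 8 := by ring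
        rw [h6]
        apply mul_le_mul_of_nonneg_right _ (by positivity)
        linarith
      · positivity
      · rw [sq]
        exact mul_le_mul (hnorm _ hα) (hnorm _ hβ) hb.le (by positivity)
    have h7 : c' * (r n / b n) ^ 2 = c * r n / Real.pi * (z.im * (r n / 8) / (D * b n) ^ 2) := by
      rw [hc']
      field_simp
    rw [h7]
    exact mul_le_mul_of_nonneg_left (h5.trans h1) (by positivity)
  have hmain : ∀ N : ℕ, ‖H z‖ ≤ B * Real.exp (16 * c) *
      Real.exp (-(c' * ∑ n ∈ Finset.range N, (r n / b n) ^ 2)) := by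
    intro N
    set ε : ℝ := 1 / ((N : ℝ) + 1) with hεd
    have hε : 0 < ε := by positivity
    have hε1 : ε ≤ 1 := by
      rw [hεd, div_le_one (by positivity)]
      have : (0 : ℝ) ≤ N := Nat.cast_nonneg N
      linarith
    have h1 := half_bound hd hB hc hbd hr hdisj hsmall hε N hz
    rw [norm_mul, prd_norm] at h1
    have h2 : 16 * c * ε * N ≤ 16 * c := by
      have h3 : ε * N ≤ 1 := by
        rw [hεd, div_mul_eq_mul_div, one_mul, div_le_one (by positivity)]
        linarith
      nlinarith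
    have h3 : c' * ∑ n ∈ Finset.range N, (r n / b n) ^ 2 ≤ ∑ n ∈ Finset.range N,
        c * r n / Real.pi * (qt (m n - r n / 16) (m n + r n / 16) (z + ε * I)).arg := by
      rw [Finset.mul_sum]
      exact Finset.sum_le_sum fun n _ => hlow ε hε hε1 n
    have h4 : ‖H z‖ * Real.exp (c' * ∑ n ∈ Finset.range N, (r n / b n) ^ 2) ≤
        B * Real.exp (16 * c) := by
      refine le_trans (mul_le_mul_of_nonneg_left (Real.exp_le_exp.2 h3) (norm_nonneg _)) ?_
      refine h1.trans ?_
      exact mul_le_mul_of_nonneg_left (Real.exp_le_exp.2 h2) hB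
    rw [Real.exp_neg, ← div_eq_mul_inv, le_div_iff₀ (Real.exp_pos _)]
    exact h4
  have hT := (not_summable_iff_tendsto_nat_atTop_of_nonneg
    (fun n => sq_nonneg (r n / b n))).mp hdiv
  have hlim : Tendsto (fun N : ℕ => B * Real.exp (16 * c) *
      Real.exp (-(c' * ∑ n ∈ Finset.range N, (r n / b n) ^ 2))) atTop (𝓝 0) := by
    have h1 := Real.tendsto_exp_neg_atTop_nhds_zero.comp (hT.const_mul_atTop hc'0)
    have h2 := h1.const_mul (B * Real.exp (16 * c))
    rw [mul_zero] at h2
    exact h2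
  have h5 : ‖H z‖ ≤ 0 := ge_of_tendsto' hlim hmain
  exact norm_le_zero_iff.mp h5

end

end

end Q97.BG
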