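import Pool.Agent.Q97.BG.Disc
import Pool.Agent.Q97.BG.Half
import Pool.Agent.Helper625.Planch

set_option autoImplicit false

open MeasureTheory Filter Topology Complex Set FourierTransform

namespace Q97.BG

noncomputable section

/-- the Fourier transform, frequency `s` -/
def ft (g : ℝ → ℂ) (s : ℝ) : ℂ := ∫ t : ℝ, g t * cexp (-(s * t * I))

variable {g : ℝ → ℂ} {S lam : ℝ} {a b : ℕ → ℝ}

theorem CT_zero (hg : Integrable g) (hS : 0 < S) (h0 : ∀ s : ℝ, |s| ≤ S → ft g s = 0)
    (ha : ∀ n, 0 < a n) (hlam : 0 < lam) (hlen : ∀ n, a n + lam ≤ b n)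
    (hdisj : ∀ n k, n ≠ k → ∀ x : ℝ, a n < x → x < b n → a k < x → x < b k → False)
    (hzero : ∀ n, ∀ᵐ t : ℝ, a n < t → t < b n → g t = 0)
    (hdiv : ¬ Summable (fun n => ((b n - a n) / b n) ^ 2)) {z : ℂ} (hz : 0 < z.im) :
    CT g z = 0 := by
  set N := ∫ t, ‖g t‖ with hN
  have hN0 : 0 ≤ N := integral_nonneg fun t => norm_nonneg _
  set η : ℝ := min (lam / 32) (z.im / 2) with hη
  have hη0 : 0 < η := lt_min (by positivity) (by positivity)
  have hη1 : η ≤ lam / 32 := min_le_left _ _
  have hη2 : η ≤ z.im / 2 := min_le_right _ _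
  set H : ℂ → ℂ := fun w => CT g (w + η * I) with hH
  set r : ℕ → ℝ := fun n => (b n - a n) / 4 with hr
  set m : ℕ → ℝ := fun n => (a n + b n) / 2 with hm
  have hr4 : ∀ n, lam / 4 ≤ r n := by
    intro n
    simp only [hr]
    linarith [hlen n]
  have hr0 : ∀ n, 0 < r n := fun n => by linarith [hr4 n]
  set B : ℝ := max (12 * N / lam) (N / η) with hB
  have hB1 : 12 * N / lam ≤ B := le_max_left _ _
  have hB2 : N / η ≤ B := le_max_right _ _
  have hB0 : 0 ≤ B := le_trans (by positivity) hB1
  have hsub : ∀ n, ∀ x : ℝ, |x - m n| < r n / 8 → a n < x ∧ x < b n := by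
    intro n x hx
    rw [abs_lt] at hx
    have h1 := hlen n
    simp only [hr, hm] at hx
    constructor <;> linarith [hx.1, hx.2]
  have hd : ∀ w : ℂ, 0 ≤ w.im → DifferentiableAt ℂ H w := by
    intro w hw
    have h1 : DifferentiableAt ℂ (CT g) (w + η * I) := by
      refine CT_diff hg (d := η) hη0 (Eventually.of_forall fun t ht => ?_)
      exfalso
      have h2 := im_le_norm t (w + η * I)
      have h3 : (w + η * I).im = w.im + η := by simp
      rw [h3, abs_of_nonneg (by linarith)] at h2
      linarith
    exact DifferentiableAt.comp (g := CT g) (f := fun w : ℂ => w + η * I) w h1 (by fun_prop)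
  have hbd : ∀ w : ℂ, 0 ≤ w.im → ‖H w‖ ≤ B := by
    intro w hw
    have h3 : (w + η * I).im = w.im + η := by simp
    have hpos : 0 < w.im + η := by linarith
    have h1 := CT_decay hg hS.le h0 (z := w + η * I) (by rw [h3]; exact hpos.ne')
    rw [h3, abs_of_pos hpos] at h1
    refine h1.trans (le_trans ?_ hB2)
    apply div_le_div₀ hN0 _ hη0 (by linarith)
    apply mul_le_of_le_one_right hN0
    rw [Real.exp_le_one_iff]
    have : 0 ≤ S * (w.im + η) := by positivity
    linarith
  have hsmall : ∀ n, ∀ x : ℝ, |x - m n| < r n / 8 → ‖H x‖ ≤ B * Real.exp (-(S / 4 * r n)) := by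
    intro n x hx
    have h1 := disc hg hS.le h0 (m := m n) (r := r n) (R := (b n - a n) / 2) (hr0 n)
      (by simp only [hr]; linarith [hlen n]) (by
        filter_upwards [hzero n] with t ht h
        rw [abs_lt] at h
        simp only [hm] at h
        exact ht (by linarith [h.1]) (by linarith [h.2])) (z := (x : ℂ) + η * I) (by
        have e : (x : ℂ) + η * I - m n = ((x - m n : ℝ) : ℂ) + η * I := by push_cast; ring
        rw [e]
        refine (norm_add_le _ _).trans ?_
        rw [norm_mul, Complex.norm_I, mul_one, Complex.norm_real, Complex.norm_real,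
          Real.norm_eq_abs, Real.norm_of_nonneg hη0.le]
        linarith [hr4 n])
    have e2 : S * r n / 4 = S / 4 * r n := by ring
    rw [e2] at h1
    refine h1.trans ?_
    apply mul_le_mul_of_nonneg_right _ (Real.exp_pos _).le
    refine le_trans ?_ hB1
    rw [div_le_div_iff₀ (hr0 n) hlam]
    have := hr4 n
    nlinarith
  have hb1 : ∀ n, lam ≤ b n := fun n => by linarith [ha n, hlen n]
  have hmb : ∀ n, |m n| + r n ≤ b n := by
    intro n
    have h1 := ha n
    have h2 := hlen n
    rw [abs_of_nonneg (by simp only [hm]; linarith)]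
    simp only [hm, hr]
    linarith
  have hdiv' : ¬ Summable (fun n => (r n / b n) ^ 2) := by
    intro hs
    apply hdiv
    refine (hs.mul_left 16).congr fun n => ?_
    simp only [hr]
    ring
  have hfin := vanish (H := H) hd hB0 (show 0 < S / 4 by positivity) hbd hr0 hmb hlam hb1
    (fun n k hnk x h1 h2 => hdisj n k hnk x (hsub n x h1).1 (hsub n x h1).2 (hsub k x h2).1
      (hsub k x h2).2) hsmall hdiv' (z := z - η * I) (by simp; linarith)
  simp only [hH, sub_add_cancel] at hfin
  exact hfin

theorem ft_integrable (hg : Integrable g) (s : ℝ) :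
    Integrable (fun t : ℝ => g t * cexp (-(s * t * I))) := by
  have hm : Continuous (fun t : ℝ => cexp (-(s * t * I))) := by fun_prop
  refine hg.norm.mono' (hg.aestronglyMeasurable.mul hm.aestronglyMeasurable)
    (Eventually.of_forall fun t => ?_)
  rw [norm_mul, Complex.norm_exp]
  simp

theorem ft_cont (hg : Integrable g) : Continuous (ft g) := by
  unfold ft
  refine continuous_of_dominated (bound := fun t => ‖g t‖)
    (fun s => (ft_integrable hg s).aestronglyMeasurable) (fun s => Eventually.of_forall fun t => ?_)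
    hg.norm (Eventually.of_forall fun t => by fun_prop)
  rw [norm_mul, Complex.norm_exp]
  simp

theorem ft_bound (s : ℝ) : ‖ft g s‖ ≤ ∫ t, ‖g t‖ := by
  unfold ft
  refine (norm_integral_le_integral_norm _).trans (le_of_eq ?_)
  refine integral_congr_ae (Eventually.of_forall fun t => ?_)
  simp only [norm_mul, Complex.norm_exp]
  simp

/-- the one-sided transform -/
theorem half_line (hg : Integrable g) {z : ℂ} (hz : 0 < z.im) :
    ∫ s in Ioi (0 : ℝ), cexp (s * z * I) * ft g s = -I * CT g z := by
  have hexpn : ∀ (s t : ℝ), ‖cexp (s * z * I) * (g t * cexp (-(s * t * I)))‖ =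
      Real.exp (-(s * z.im)) * ‖g t‖ := by
    intro s t
    rw [norm_mul, norm_mul, Complex.norm_exp, Complex.norm_exp]
    simp
  have hint : Integrable (Function.uncurry fun (s t : ℝ) =>
      cexp (s * z * I) * (g t * cexp (-(s * t * I))))
      ((volume.restrict (Ioi (0 : ℝ))).prod volume) := by
    have h1 : Integrable (fun s : ℝ => Real.exp (-(s * z.im))) (volume.restrict (Ioi (0 : ℝ))) := by
      have := exp_neg_integrableOn_Ioi 0 hz
      refine this.congr_fun (fun s _ => ?_) measurableSet_Ioi
      simp only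
      ring_nf
    have h2 := h1.mul_prod hg.norm
    refine h2.mono' ?_ (Eventually.of_forall fun p => ?_)
    · have hgs : AEStronglyMeasurable (fun p : ℝ × ℝ => g p.2)
          ((volume.restrict (Ioi (0 : ℝ))).prod volume) := hg.aestronglyMeasurable.comp_snd
      have c1 : Continuous (fun p : ℝ × ℝ => cexp (p.1 * z * I)) := by fun_prop
      have c2 : Continuous (fun p : ℝ × ℝ => cexp (-(p.1 * p.2 * I))) := by fun_prop
      exact c1.aestronglyMeasurable.mul (hgs.mul c2.aestronglyMeasurable)
    · simp only [Function.uncurry]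
      rw [hexpn]
  have e1 : ∫ s in Ioi (0 : ℝ), cexp (s * z * I) * ft g s =
      ∫ s in Ioi (0 : ℝ), ∫ t : ℝ, cexp (s * z * I) * (g t * cexp (-(s * t * I))) := by
    refine integral_congr_ae (Eventually.of_forall fun s => ?_)
    simp only [ft]
    rw [integral_const_mul]
  rw [e1, integral_integral_swap hint]
  unfold CT
  rw [← integral_const_mul]
  refine integral_congr_ae (Eventually.of_forall fun t => ?_)
  simp only
  have e2 : ∀ s : ℝ, cexp (s * z * I) * (g t * cexp (-(s * t * I))) =
      g t * cexp ((z - t) * I * s) := by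
    intro s
    rw [show (z - t) * I * s = s * z * I + -(s * t * I) by ring, Complex.exp_add]
    ring
  rw [integral_congr_ae (Eventually.of_forall e2), integral_const_mul,
    integral_exp_mul_complex_Ioi (by simp; exact hz)]
  have hne : (t : ℂ) - z ≠ 0 := by
    intro h
    have := im_le_norm t z
    rw [h, norm_zero, abs_of_pos hz] at this
    linarith
  have hne2 : z - (t : ℂ) ≠ 0 := by
    intro h
    apply hne
    rw [← neg_sub, h, neg_zero]
  have hI := Complex.I_ne_zero
  have e3 : (z - t) * I * ((0 : ℝ) : ℂ) = 0 := by simp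
  rw [e3, Complex.exp_zero]
  have e4 : -1 / ((z - t) * I) = -I / (t - z) := by
    rw [div_eq_div_iff (mul_ne_zero hne2 hI) hne]
    linear_combination (z - t) * Complex.I_sq
  rw [e4]
  ring

/-- Vanishing of the Cauchy transform in the upper half-plane. -/
theorem ft_zero (hg : Integrable g) (hS : 0 < S) (h0 : ∀ s : ℝ, |s| ≤ S → ft g s = 0)
    (hC : ∀ z : ℂ, 0 < z.im → CT g z = 0) {s : ℝ} (hs : 0 < s) : ft g s = 0 := by
  set N := ∫ t, ‖g t‖ with hN
  set f : ℝ → ℂ := fun s => cexp (-s) * ft g s with hf
  have hfc : Continuous f := by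
    have := ft_cont hg
    fun_prop
  set h : ℝ → ℂ := (Ioi (0 : ℝ)).indicator f with hh
  have hcont : Continuous h := by
    rw [continuous_iff_continuousAt]
    intro x
    rcases lt_or_ge x (S / 2) with hx | hx
    · have h1 : h =ᶠ[𝓝 x] fun _ => 0 := by
        filter_upwards [Iio_mem_nhds (show x < S by linarith)] with y hy
        simp only [hh]
        by_cases hy0 : y ∈ Ioi (0 : ℝ)
        · rw [indicator_of_mem hy0]
          simp only [hf]
          rw [h0 y (by rw [abs_of_pos hy0]; exact le_of_lt hy), mul_zero]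
        · rw [indicator_of_notMem hy0]
      exact continuousAt_const.congr h1.symm
    · have h1 : h =ᶠ[𝓝 x] f := by
        filter_upwards [Ioi_mem_nhds (show 0 < x by linarith)] with y hy
        simp only [hh]
        rw [indicator_of_mem hy]
      exact hfc.continuousAt.congr h1.symm
  have hint : Integrable h := by
    rw [hh, integrable_indicator_iff measurableSet_Ioi]
    have h1 := (exp_neg_integrableOn_Ioi 0 one_pos).mul_const N
    refine Integrable.mono' h1 hfc.aestronglyMeasurable (Eventually.of_forall fun s => ?_)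
    simp only [hf]
    rw [norm_mul, Complex.norm_exp]
    simp only [Complex.neg_re, Complex.ofReal_re, neg_mul, one_mul]
    exact mul_le_mul_of_nonneg_left (ft_bound s) (Real.exp_pos _).le
  have hF : 𝓕 h = 0 := by
    funext ξ
    rw [Real.fourier_eq']
    set z : ℂ := -(2 * Real.pi * ξ) + I with hz
    have hzi : z.im = 1 := by rw [hz]; simp
    have h1 := half_line hg (z := z) (by rw [hzi]; exact one_pos)
    rw [hC z (by rw [hzi]; exact one_pos), mul_zero] at h1
    simp only [Pi.zero_apply]
    rw [← h1, ← integral_indicator measurableSet_Ioi]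
    refine integral_congr_ae (Eventually.of_forall fun s => ?_)
    simp only [hh]
    by_cases hs0 : s ∈ Ioi (0 : ℝ)
    · rw [indicator_of_mem hs0, indicator_of_mem hs0]
      simp only [hf, smul_eq_mul]
      rw [← mul_assoc, ← Complex.exp_add]
      congr 2
      simp only [RCLike.inner_apply, conj_trivial]
      rw [hz]
      push_cast
      linear_combination (-(s : ℂ)) * Complex.I_sq
    · rw [indicator_of_notMem hs0, indicator_of_notMem hs0, smul_zero]
  have hinv := hcont.fourierInv_fourier_eq hint (by rw [hF]; exact integrable_zero _ _ _)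
  rw [hF] at hinv
  have hz : h s = 0 := by
    rw [← hinv]
    rw [Real.fourierInv_eq]
    simp
  simp only [hh] at hz
  rw [indicator_of_mem (show s ∈ Ioi (0 : ℝ) from hs)] at hz
  exact (mul_eq_zero.mp hz).resolve_left (Complex.exp_ne_zero _)

/-- **Gap theorem** for real square integrable functions. -/
theorem gap_real {g : ℝ → ℝ} (hg : Integrable g) (hg2 : MemLp (fun t => (g t : ℂ)) 2) (hS : 0 < S)
    (h0 : ∀ s : ℝ, |s| ≤ S → ft (fun t => (g t : ℂ)) s = 0)
    (ha : ∀ n, 0 < a n) (hlam : 0 < lam) (hlen : ∀ n, a n + lam ≤ b n)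
    (hdisj : ∀ n k, n ≠ k → ∀ x : ℝ, a n < x → x < b n → a k < x → x < b k → False)
    (hzero : ∀ n, ∀ᵐ t : ℝ, a n < t → t < b n → g t = 0)
    (hdiv : ¬ Summable (fun n => ((b n - a n) / b n) ^ 2)) : ∀ᵐ t, g t = 0 := by
  set G : ℝ → ℂ := fun t => (g t : ℂ) with hG
  have hGi : Integrable G := hg.ofReal
  have hC : ∀ z : ℂ, 0 < z.im → CT G z = 0 := fun z hz =>
    CT_zero hGi hS h0 ha hlam hlen hdisj (fun n => by
      filter_upwards [hzero n] with t ht h1 h2
      simp only [hG]
      rw [ht h1 h2, Complex.ofReal_zero]) hdiv hz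
  have hpos : ∀ s : ℝ, 0 < s → ft G s = 0 := fun s hs => ft_zero hGi hS h0 hC hs
  have hneg : ∀ s : ℝ, ft G (-s) = (starRingEnd ℂ) (ft G s) := by
    intro s
    unfold ft
    rw [← integral_conj]
    refine integral_congr_ae (Eventually.of_forall fun t => ?_)
    simp only [hG, map_mul, Complex.conj_ofReal, ← Complex.exp_conj, map_neg, Complex.conj_I]
    push_cast
    congr 2
    ring
  have hall : ∀ s : ℝ, ft G s = 0 := by
    intro s
    rcases lt_trichotomy s 0 with h | h | h
    · have h1 := hneg (-s)
      rw [neg_neg, hpos (-s) (by linarith), map_zero] at h1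
      exact h1
    · exact h0 s (by rw [h, abs_zero]; exact hS.le)
    · exact hpos s h
  have hF : 𝓕 G = 0 := by
    funext ξ
    rw [Real.fourier_eq']
    have h1 := hall (2 * Real.pi * ξ)
    rw [Pi.zero_apply, ← h1]
    unfold ft
    refine integral_congr_ae (Eventually.of_forall fun t => ?_)
    simp only [smul_eq_mul, RCLike.inner_apply, conj_trivial]
    rw [mul_comm]
    congr 2
    push_cast
    ring
  have hP := (Pool.Agent.Helper625.Planch.plancherel G hGi hg2).2
  rw [hF] at hP
  have h2 : ∫ t, ‖G t‖ ^ 2 = 0 := by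
    rw [← hP]
    simp
  have h3 := (integral_eq_zero_iff_of_nonneg (fun t => by positivity)
    ((memLp_two_iff_integrable_sq_norm hg2.aestronglyMeasurable).mp hg2)).mp h2
  filter_upwards [h3] with t ht
  have h4 : ‖G t‖ ^ 2 = 0 := ht
  have h5 : G t = 0 := norm_eq_zero.mp (pow_eq_zero_iff two_ne_zero |>.mp h4)
  exact Complex.ofReal_eq_zero.mp h5

end

end Q97.BG
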