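import Pool.Agent.Q97.BG.Mass

set_option autoImplicit false

open MeasureTheory Filter Topology Complex Set FourierTransform

namespace Q97.BG

noncomputable section

section

variable {g : ℝ → ℂ}

/-- Exponential smallness in the middle of a gap of the support. -/
theorem disc1 (hg : Integrable g) {S N : ℝ} (hS : 0 ≤ S) (hN0 : 0 ≤ N) {m r R : ℝ} (hr : 0 < r)
    (hdec : ∀ z : ℂ, z.im ≠ 0 → ‖z - m‖ ≤ r → ‖CT g z‖ ≤ N * Real.exp (-(S * |z.im|)) / |z.im|)
    (hrR : r < R) (hgap : ∀ᵐ t : ℝ, |t - m| < R → g t = 0) {z : ℂ} (hz : ‖z - m‖ ≤ r / 4) :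
    ‖CT g z‖ ≤ 3 * N / r * Real.exp (-(S * r / 4)) := by
  set W : ℂ → ℂ := fun z => CT g z * ((z - m) ^ 2 - (r : ℂ) ^ 2) *
    cexp ((S / 2 : ℝ) * (r - (z - m) ^ 2 / r)) with hW
  have hdiff : ∀ z ∈ Metric.closedBall (m : ℂ) r, DifferentiableAt ℂ W z := by
    intro z hz
    rw [Metric.mem_closedBall, dist_eq_norm] at hz
    have h1 : DifferentiableAt ℂ (CT g) z := by
      refine CT_diff hg (d := R - r) (by linarith) ?_
      filter_upwards [hgap] with t ht hd
      apply ht
      have h2 : ‖(t : ℂ) - m‖ ≤ ‖(t : ℂ) - z‖ + ‖z - m‖ := by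
        have := norm_add_le ((t : ℂ) - z) (z - m)
        rwa [sub_add_sub_cancel] at this
      rw [← Complex.ofReal_sub, Complex.norm_real, Real.norm_eq_abs] at h2
      linarith
    have h2 : DifferentiableAt ℂ (fun z : ℂ => (z - m) ^ 2 - (r : ℂ) ^ 2) z := by fun_prop
    have h3 : DifferentiableAt ℂ (fun z : ℂ => cexp ((S / 2 : ℝ) * (r - (z - m) ^ 2 / r))) z := by
      fun_prop
    exact (h1.mul h2).mul h3
  have hdc : DiffContOnCl ℂ W (Metric.ball (m : ℂ) r) := by
    apply DifferentiableOn.diffContOnCl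
    rw [closure_ball _ hr.ne']
    exact fun z hz => (hdiff z hz).differentiableWithinAt
  have hbd : ∀ z ∈ frontier (Metric.ball (m : ℂ) r), ‖W z‖ ≤ 2 * r * N := by
    intro z hz
    rw [frontier_ball _ hr.ne', mem_sphere_iff_norm] at hz
    set w := z - m with hw
    have hwim : w.im = z.im := by simp [hw]
    simp only [hW]
    rw [← hw, norm_mul, norm_mul, sq_norm hr.le hz, exp_norm]
    have h1 : w.re ^ 2 + w.im ^ 2 = r ^ 2 := by
      rw [← hz, ← Complex.normSq_eq_norm_sq, Complex.normSq_apply]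
      ring
    by_cases hy : z.im = 0
    · rw [hwim, hy]
      simp
      positivity
    · have hyp : 0 < |z.im| := abs_pos.mpr hy
      have h2 := hdec z hy (by rw [← hw, hz])
      have h3 : r - (w.re ^ 2 - w.im ^ 2) / r = 2 * w.im ^ 2 / r := by
        field_simp
        linarith
      have h4 : |w.im| ≤ r := by
        rw [← hz]
        exact Complex.abs_im_le_norm w
      have h5 : Real.exp (S / 2 * (r - (w.re ^ 2 - w.im ^ 2) / r)) ≤ Real.exp (S * |z.im|) := by
        rw [h3]
        apply Real.exp_le_exp.2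
        have h6 : S / 2 * (2 * w.im ^ 2 / r) = S * (|w.im| * (|w.im| / r)) := by
          rw [← sq_abs]
          ring
        rw [h6, ← hwim]
        apply mul_le_mul_of_nonneg_left _ hS
        apply mul_le_of_le_one_right (abs_nonneg _)
        rw [div_le_one hr]
        exact h4
      rw [hwim]
      calc ‖CT g z‖ * (2 * r * |z.im|) * Real.exp (S / 2 * (r - (w.re ^ 2 - z.im ^ 2) / r))
          ≤ (N * Real.exp (-(S * |z.im|)) / |z.im|) * (2 * r * |z.im|) *
              Real.exp (S * |z.im|) := by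
            rw [hwim] at h5
            gcongr
        _ = 2 * r * N * (Real.exp (-(S * |z.im|)) * Real.exp (S * |z.im|)) := by
            field_simp
        _ = 2 * r * N := by
            rw [← Real.exp_add, neg_add_cancel, Real.exp_zero, mul_one]
  have hzc : z ∈ closure (Metric.ball (m : ℂ) r) := by
    rw [closure_ball _ hr.ne', Metric.mem_closedBall, dist_eq_norm]
    linarith
  have hfin := Complex.norm_le_of_forall_mem_frontier_norm_le Metric.isBounded_ball hdc hbd hzc
  simp only [hW] at hfin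
  rw [norm_mul, norm_mul, exp_norm] at hfin
  set w := z - m with hw
  have hw2 : ‖w ^ 2‖ ≤ r ^ 2 / 16 := by
    rw [norm_pow]
    have := pow_le_pow_left₀ (norm_nonneg _) hz 2
    nlinarith
  have h1 : 15 / 16 * r ^ 2 ≤ ‖w ^ 2 - (r : ℂ) ^ 2‖ := by
    have h2 := norm_sub_norm_le ((r : ℂ) ^ 2) (w ^ 2)
    rw [norm_sub_rev, norm_pow, Complex.norm_real, Real.norm_of_nonneg hr.le] at h2
    linarith
  have h3 : Real.exp (S * r / 4) ≤ Real.exp (S / 2 * (r - (w.re ^ 2 - w.im ^ 2) / r)) := by
    apply Real.exp_le_exp.2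
    have h4 : w.re ^ 2 - w.im ^ 2 ≤ r ^ 2 / 16 := by
      have h5 : w.re ^ 2 ≤ ‖w‖ ^ 2 := by
        rw [← Complex.normSq_eq_norm_sq, Complex.normSq_apply]
        nlinarith [mul_self_nonneg w.im]
      rw [norm_pow] at hw2
      nlinarith [sq_nonneg w.im]
    have h5 : (w.re ^ 2 - w.im ^ 2) / r ≤ r / 16 := by
      rw [div_le_iff₀ hr]
      nlinarith
    nlinarith
  have hc0 := norm_nonneg (CT g z)
  have h6 : ‖CT g z‖ * (15 / 16 * r ^ 2) * Real.exp (S * r / 4) ≤ 2 * r * N := by
    refine le_trans ?_ hfin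
    gcongr
  rw [Real.exp_neg, ← div_eq_mul_inv, div_div, le_div_iff₀ (by positivity)]
  have hE := Real.exp_pos (S * r / 4)
  have h7 : ‖CT g z‖ * (r * Real.exp (S * r / 4)) * (15 / 16 * r) ≤ 2 * N * r := by
    nlinarith
  have h8 : ‖CT g z‖ * (r * Real.exp (S * r / 4)) * (15 / 16) ≤ 2 * N := by
    have h9 : (‖CT g z‖ * (r * Real.exp (S * r / 4)) * (15 / 16)) * r ≤ (2 * N) * r := by
      nlinarith
    exact le_of_mul_le_mul_right h9 hr
  nlinarith


end

section

variable {f : ℝ → ℝ} {S lam : ℝ} {a b : ℕ → ℝ}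

/-- the Cauchy transform in the middle of an interval of constant sign -/
theorem mid (hf : Integrable f) (hS : 0 < S)
    (h0 : ∀ s : ℝ, |s| ≤ S → ft (fun t => (f t : ℂ)) s = 0) {m R η : ℝ} (hR : 0 < R) (hη : 0 < η)
    (hη2 : η ≤ R / 128) (hpos : ∀ᵐ t : ℝ, |t - m| < R → 0 ≤ f t) {x : ℝ} (hx : |x - m| < R / 128) :
    ‖CT (fun t => (f t : ℂ)) ((x : ℂ) + η * I)‖ ≤
      (64 / η + 3200 / R) * (∫ t, |f t|) * Real.exp (-(S * R / 64)) := by
  set N := ∫ t, |f t| with hN
  have hN0 : 0 ≤ N := integral_nonneg fun t => abs_nonneg _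
  have hmass := mass hf hS h0 hR hpos
  rw [← hN] at hmass
  set J : Set ℝ := {t : ℝ | |t - m| < R / 8} with hJ
  have hJm : MeasurableSet J := measurableSet_lt (by fun_prop) measurable_const
  set M := ∫ t in J, |f t| with hM
  have hM0 : 0 ≤ M := integral_nonneg fun t => abs_nonneg _
  set F : ℝ → ℂ := fun t => (f t : ℂ) with hF
  have hFi : Integrable F := hf.ofReal
  set g1 : ℝ → ℂ := J.indicator F with hg1
  set g2 : ℝ → ℂ := Jᶜ.indicator F with hg2
  have hg1i : Integrable g1 := hFi.indicator hJm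
  have hg2i : Integrable g2 := hFi.indicator hJm.compl
  have hker : ∀ {h : ℝ → ℂ}, Integrable h → ∀ {z : ℂ}, z.im ≠ 0 →
      Integrable (fun t : ℝ => h t / ((t : ℂ) - z)) := by
    intro h hh z hz
    have hz' : 0 < |z.im| := abs_pos.2 hz
    refine (hh.norm.mul_const (1 / |z.im|)).mono' (aesm_div hh) (Eventually.of_forall fun t => ?_)
    rw [norm_div, div_eq_mul_one_div]
    exact mul_le_mul_of_nonneg_left (one_div_le_one_div_of_le hz' (im_le_norm t z))
      (norm_nonneg _)
  have hadd : ∀ {z : ℂ}, z.im ≠ 0 → CT F z = CT g1 z + CT g2 z := by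
    intro z hz
    unfold CT
    rw [← integral_add (hker hg1i hz) (hker hg2i hz)]
    refine integral_congr_ae (Eventually.of_forall fun t => ?_)
    show F t / (t - z) = g1 t / (t - z) + g2 t / (t - z)
    rw [← add_div]
    congr 1
    have := congrFun (Set.indicator_self_add_compl J F) t
    exact this.symm
  have hone : ∀ {z : ℂ}, z.im ≠ 0 → ‖CT g1 z‖ ≤ M / |z.im| := by
    intro z hz
    have hz' : 0 < |z.im| := abs_pos.2 hz
    have e : M / |z.im| = ∫ t, ‖g1 t‖ * (1 / |z.im|) := by
      rw [integral_mul_const, mul_one_div]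
      congr 1
      rw [hM, ← integral_indicator hJm]
      refine integral_congr_ae (Eventually.of_forall fun t => ?_)
      show J.indicator (fun t => |f t|) t = ‖J.indicator F t‖
      by_cases ht : t ∈ J
      · rw [indicator_of_mem ht, indicator_of_mem ht]
        simp [hF]
      · rw [indicator_of_notMem ht, indicator_of_notMem ht, norm_zero]
    rw [e]
    unfold CT
    refine norm_integral_le_of_norm_le (hg1i.norm.mul_const _) (Eventually.of_forall fun t => ?_)
    rw [norm_div, div_eq_mul_one_div]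
    exact mul_le_mul_of_nonneg_left (one_div_le_one_div_of_le hz' (im_le_norm t z))
      (norm_nonneg _)
  have hNF : ∫ t, ‖F t‖ = N := by
    rw [hN]
    refine integral_congr_ae (Eventually.of_forall fun t => ?_)
    simp [hF]
  have hdec : ∀ z : ℂ, z.im ≠ 0 → ‖z - m‖ ≤ R / 16 →
      ‖CT g2 z‖ ≤ (65 * N) * Real.exp (-(S * |z.im|)) / |z.im| := by
    intro z hz hzm
    have hz' : 0 < |z.im| := abs_pos.2 hz
    have h1 := CT_decay hFi hS.le h0 hz
    rw [hNF] at h1
    have h2 := hone hz
    have h3 : ‖CT g2 z‖ ≤ ‖CT F z‖ + ‖CT g1 z‖ := by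
      have h4 : CT g2 z = CT F z - CT g1 z := by rw [hadd hz]; ring
      rw [h4]
      exact norm_sub_le _ _
    have him : |z.im| ≤ R / 16 := by
      have h4 := Complex.abs_im_le_norm (z - m)
      simp at h4
      linarith
    have h5 : M ≤ 64 * N * Real.exp (-(S * |z.im|)) := by
      refine hmass.trans (mul_le_mul_of_nonneg_left (Real.exp_le_exp.2 ?_) (by positivity))
      have : S * |z.im| ≤ S * (R / 16) := mul_le_mul_of_nonneg_left him hS.le
      have : 0 ≤ S * R := by positivity
      linarith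
    calc ‖CT g2 z‖ ≤ N * Real.exp (-(S * |z.im|)) / |z.im| + M / |z.im| := by linarith
      _ ≤ N * Real.exp (-(S * |z.im|)) / |z.im| + 64 * N * Real.exp (-(S * |z.im|)) / |z.im| := by
          gcongr
      _ = _ := by ring
  have hgap : ∀ᵐ t : ℝ, |t - m| < R / 8 → g2 t = 0 := by
    refine Eventually.of_forall fun t ht => ?_
    show Jᶜ.indicator F t = 0
    rw [indicator_of_notMem]
    intro hc
    exact hc ht
  have him : ((x : ℂ) + η * I).im = η := by simp
  have hzr : ‖((x : ℂ) + η * I) - m‖ ≤ R / 16 / 4 := by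
    have e : ((x : ℂ) + η * I) - m = ((x - m : ℝ) : ℂ) + η * I := by push_cast; ring
    rw [e]
    refine (norm_add_le _ _).trans ?_
    rw [norm_mul, Complex.norm_I, mul_one, Complex.norm_real, Complex.norm_real,
      Real.norm_eq_abs, Real.norm_of_nonneg hη.le]
    linarith
  have h1 := disc1 hg2i hS.le (show 0 ≤ 65 * N by positivity) (show 0 < R / 16 by positivity)
    hdec (show R / 16 < R / 8 by linarith) hgap hzr
  have hne : ((x : ℂ) + η * I).im ≠ 0 := by rw [him]; exact hη.ne'
  have h2 := hone hne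
  rw [him, abs_of_pos hη] at h2
  rw [hadd hne]
  refine (norm_add_le _ _).trans ?_
  have h3 : M / η ≤ 64 / η * N * Real.exp (-(S * R / 64)) := by
    have h4 : M ≤ 64 * N * Real.exp (-(S * R / 64)) := by
      refine hmass.trans (mul_le_mul_of_nonneg_left (Real.exp_le_exp.2 ?_) (by positivity))
      have : 0 ≤ S * R := by positivity
      linarith
    calc M / η ≤ 64 * N * Real.exp (-(S * R / 64)) / η := by gcongr
      _ = _ := by ring
  have h4 : 3 * (65 * N) / (R / 16) * Real.exp (-(S * (R / 16) / 4)) ≤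
      3200 / R * N * Real.exp (-(S * R / 64)) := by
    have e1 : S * (R / 16) / 4 = S * R / 64 := by ring
    rw [e1]
    apply mul_le_mul_of_nonneg_right _ (Real.exp_pos _).le
    rw [div_div_eq_mul_div, div_mul_eq_mul_div, div_le_div_iff_of_pos_right hR]
    nlinarith
  linarith

theorem CT_neg (g : ℝ → ℂ) (z : ℂ) : CT (fun t => -g t) z = -CT g z := by
  unfold CT
  rw [← integral_neg]
  refine integral_congr_ae (Eventually.of_forall fun t => ?_)
  show -g t / (t - z) = -(g t / (t - z))
  rw [neg_div]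

theorem ft_neg (g : ℝ → ℂ) (s : ℝ) : ft (fun t => -g t) s = -ft g s := by
  unfold ft
  rw [← integral_neg]
  refine integral_congr_ae (Eventually.of_forall fun t => ?_)
  show -g t * _ = -(g t * _)
  rw [neg_mul]

/-- one-sided information in the intervals -/
theorem CT_zero1 (hf : Integrable f) (hS : 0 < S)
    (h0 : ∀ s : ℝ, |s| ≤ S → ft (fun t => (f t : ℂ)) s = 0)
    (ha : ∀ n, 0 < a n) (hlam : 0 < lam) (hlen : ∀ n, a n + lam ≤ b n)
    (hdisj : ∀ n k, n ≠ k → ∀ x : ℝ, a n < x → x < b n → a k < x → x < b k → False)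
    {σ : ℕ → ℝ} (hσ : ∀ n, σ n = 1 ∨ σ n = -1)
    (hsgn : ∀ n, ∀ᵐ t : ℝ, a n < t → t < b n → 0 ≤ σ n * f t)
    (hdiv : ¬ Summable (fun n => ((b n - a n) / b n) ^ 2)) {z : ℂ} (hz : 0 < z.im) :
    CT (fun t => (f t : ℂ)) z = 0 := by
  set N := ∫ t, |f t| with hN
  have hN0 : 0 ≤ N := integral_nonneg fun t => abs_nonneg _
  set g : ℝ → ℂ := fun t => (f t : ℂ) with hg'
  have hg : Integrable g := hf.ofReal
  have hNg : ∫ t, ‖g t‖ = N := by
    rw [hN]
    refine integral_congr_ae (Eventually.of_forall fun t => ?_)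
    simp [hg']
  set η : ℝ := min (lam / 256) (z.im / 2) with hη
  have hη0 : 0 < η := lt_min (by positivity) (by positivity)
  have hη1 : η ≤ lam / 256 := min_le_left _ _
  have hη2 : η ≤ z.im / 2 := min_le_right _ _
  set H : ℂ → ℂ := fun w => CT g (w + η * I) with hH
  set r : ℕ → ℝ := fun n => (b n - a n) / 32 with hr
  set m : ℕ → ℝ := fun n => (a n + b n) / 2 with hm
  have hr4 : ∀ n, lam / 32 ≤ r n := by
    intro n
    simp only [hr]
    linarith [hlen n]
  have hr0 : ∀ n, 0 < r n := fun n => by linarith [hr4 n]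
  set B : ℝ := max ((64 / η + 6400 / lam) * N) (N / η) with hB
  have hB1 : (64 / η + 6400 / lam) * N ≤ B := le_max_left _ _
  have hB2 : N / η ≤ B := le_max_right _ _
  have hB0 : 0 ≤ B := le_trans (by positivity) hB2
  have hsub : ∀ n, ∀ x : ℝ, |x - m n| < r n / 8 → a n < x ∧ x < b n := by
    intro n x hx
    rw [abs_lt] at hx
    have h1 := hlen n
    simp only [hr, hm] at hx
    constructor <;> linarith [hx.1, hx.2]
  have hd : ∀ w : ℂ, 0 ≤ w.im → DifferentiableAt ℂ H w := by
    intro w hw
    have h1 : DifferentiableAt ℂ (CT g) (w + η * I) := by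
      refine CT_diff hg (d := η) hη0 (Eventually.of_forall fun t ht => ?_)
      exfalso
      have h2 := im_le_norm t (w + η * I)
      have h3 : (w + η * I).im = w.im + η := by simp
      rw [h3, abs_of_nonneg (by linarith)] at h2
      linarith
    exact DifferentiableAt.comp (g := CT g) (f := fun w : ℂ => w + η * I) w h1 (by fun_prop)
  have hbd : ∀ w : ℂ, 0 ≤ w.im → ‖H w‖ ≤ B := by
    intro w hw
    have h3 : (w + η * I).im = w.im + η := by simp
    have hpos : 0 < w.im + η := by linarith
    have h1 := CT_decay hg hS.le h0 (z := w + η * I) (by rw [h3]; exact hpos.ne')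
    rw [h3, abs_of_pos hpos, hNg] at h1
    refine h1.trans (le_trans ?_ hB2)
    apply div_le_div₀ hN0 _ hη0 (by linarith)
    apply mul_le_of_le_one_right hN0
    rw [Real.exp_le_one_iff]
    have : 0 ≤ S * (w.im + η) := by positivity
    linarith
  have hsmall : ∀ n, ∀ x : ℝ, |x - m n| < r n / 8 → ‖H x‖ ≤ B * Real.exp (-(S / 4 * r n)) := by
    intro n x hx
    set R : ℝ := (b n - a n) / 2 with hR
    have hR0 : 0 < R := by rw [hR]; linarith [hlen n]
    have hRl : lam / 2 ≤ R := by rw [hR]; linarith [hlen n]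
    have hrR : r n = R / 16 := by simp only [hr, hR]; ring
    have hx' : |x - m n| < R / 128 := by
      rw [hrR] at hx
      linarith
    have hηR : η ≤ R / 128 := by linarith
    have hin : ∀ t : ℝ, |t - m n| < R → a n < t ∧ t < b n := by
      intro t ht
      rw [abs_lt] at ht
      simp only [hm, hR] at ht
      constructor <;> linarith [ht.1, ht.2]
    have h1 : ‖CT g ((x : ℂ) + η * I)‖ ≤
        (64 / η + 3200 / R) * N * Real.exp (-(S * R / 64)) := by
      rcases hσ n with h | h
      · refine mid hf hS h0 hR0 hη0 hηR ?_ hx'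
        filter_upwards [hsgn n] with t ht h2
        have h3 := ht (hin t h2).1 (hin t h2).2
        rw [h, one_mul] at h3
        exact h3
      · have h2 := mid (f := fun t => -f t) hf.neg hS (fun s hs => by
            have h3 := ft_neg (fun t => (f t : ℂ)) s
            rw [h0 s hs, neg_zero] at h3
            rw [← h3]
            congr 1
            funext t
            push_cast
            rfl) hR0 hη0 hηR (by
            filter_upwards [hsgn n] with t ht h2
            have h3 := ht (hin t h2).1 (hin t h2).2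
            rw [h] at h3
            linarith) hx'
        have e1 : (fun t : ℝ => ((-f t : ℝ) : ℂ)) = fun t => -(f t : ℂ) := by
          funext t
          push_cast
          rfl
        rw [e1, CT_neg, norm_neg] at h2
        have e2 : ∫ t, |(-f t)| = N := by
          rw [hN]
          refine integral_congr_ae (Eventually.of_forall fun t => ?_)
          show |(-f t)| = |f t|
          rw [abs_neg]
        rw [e2] at h2
        exact h2
    have e2 : S * R / 64 = S / 4 * r n := by rw [hrR]; ring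
    rw [e2] at h1
    refine h1.trans ?_
    apply mul_le_mul_of_nonneg_right _ (Real.exp_pos _).le
    refine le_trans ?_ hB1
    apply mul_le_mul_of_nonneg_right _ hN0
    have h3 : 3200 / R ≤ 6400 / lam := by
      rw [div_le_div_iff₀ hR0 hlam]
      linarith
    linarith
  have hb1 : ∀ n, lam ≤ b n := fun n => by linarith [ha n, hlen n]
  have hmb : ∀ n, |m n| + r n ≤ b n := by
    intro n
    have h1 := ha n
    have h2 := hlen n
    rw [abs_of_nonneg (by simp only [hm]; linarith)]
    simp only [hm, hr]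
    linarith
  have hdiv' : ¬ Summable (fun n => (r n / b n) ^ 2) := by
    intro hs
    apply hdiv
    refine (hs.mul_left 1024).congr fun n => ?_
    simp only [hr]
    ring
  have hfin := vanish (H := H) hd hB0 (show 0 < S / 4 by positivity) hbd hr0 hmb hlam hb1
    (fun n k hnk x h1 h2 => hdisj n k hnk x (hsub n x h1).1 (hsub n x h1).2 (hsub k x h2).1
      (hsub k x h2).2) hsmall hdiv' (z := z - η * I) (by simp; linarith)
  simp only [hH, sub_add_cancel] at hfin
  exact hfin

/-- **Gap theorem with one-sided information** for real square integrable functions. -/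
theorem gap_real1 {g : ℝ → ℝ} (hg : Integrable g) (hg2 : MemLp (fun t => (g t : ℂ)) 2) (hS : 0 < S)
    (h0 : ∀ s : ℝ, |s| ≤ S → ft (fun t => (g t : ℂ)) s = 0)
    (ha : ∀ n, 0 < a n) (hlam : 0 < lam) (hlen : ∀ n, a n + lam ≤ b n)
    (hdisj : ∀ n k, n ≠ k → ∀ x : ℝ, a n < x → x < b n → a k < x → x < b k → False)
    {σ : ℕ → ℝ} (hσ : ∀ n, σ n = 1 ∨ σ n = -1)
    (hsgn : ∀ n, ∀ᵐ t : ℝ, a n < t → t < b n → 0 ≤ σ n * g t)
    (hdiv : ¬ Summable (fun n => ((b n - a n) / b n) ^ 2)) : ∀ᵐ t, g t = 0 := by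
  set G : ℝ → ℂ := fun t => (g t : ℂ) with hG
  have hGi : Integrable G := hg.ofReal
  have hC : ∀ z : ℂ, 0 < z.im → CT G z = 0 := fun z hz =>
    CT_zero1 hg hS h0 ha hlam hlen hdisj hσ hsgn hdiv hz
  have hpos : ∀ s : ℝ, 0 < s → ft G s = 0 := fun s hs => ft_zero hGi hS h0 hC hs
  have hneg : ∀ s : ℝ, ft G (-s) = (starRingEnd ℂ) (ft G s) := by
    intro s
    unfold ft
    rw [← integral_conj]
    refine integral_congr_ae (Eventually.of_forall fun t => ?_)
    simp only [hG, map_mul, Complex.conj_ofReal, ← Complex.exp_conj, map_neg, Complex.conj_I]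
    push_cast
    congr 2
    ring
  have hall : ∀ s : ℝ, ft G s = 0 := by
    intro s
    rcases lt_trichotomy s 0 with h | h | h
    · have h1 := hneg (-s)
      rw [neg_neg, hpos (-s) (by linarith), map_zero] at h1
      exact h1
    · exact h0 s (by rw [h, abs_zero]; exact hS.le)
    · exact hpos s h
  have hF : 𝓕 G = 0 := by
    funext ξ
    rw [Real.fourier_eq']
    have h1 := hall (2 * Real.pi * ξ)
    rw [Pi.zero_apply, ← h1]
    unfold ft
    refine integral_congr_ae (Eventually.of_forall fun t => ?_)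
    simp only [smul_eq_mul, RCLike.inner_apply, conj_trivial]
    rw [mul_comm]
    congr 2
    push_cast
    ring
  have hP := (Pool.Agent.Helper625.Planch.plancherel G hGi hg2).2
  rw [hF] at hP
  have h2 : ∫ t, ‖G t‖ ^ 2 = 0 := by
    rw [← hP]
    simp
  have h3 := (integral_eq_zero_iff_of_nonneg (fun t => by positivity)
    ((memLp_two_iff_integrable_sq_norm hg2.aestronglyMeasurable).mp hg2)).mp h2
  filter_upwards [h3] with t ht
  have h4 : ‖G t‖ ^ 2 = 0 := ht
  have h5 : G t = 0 := norm_eq_zero.mp (pow_eq_zero_iff two_ne_zero |>.mp h4)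
  exact Complex.ofReal_eq_zero.mp h5

end

end

end Q97.BG
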