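import Pool.Agent.Q97.BG.Gap

set_option autoImplicit false

open MeasureTheory Filter Topology Complex Set

namespace Q97.BG

noncomputable section

/-- `sinc` as an average of exponentials -/
theorem sinc_avg (θ : ℝ) : ∫ u in (-1 : ℝ)..1, cexp (θ * u * I) = 2 * (Real.sinc θ : ℂ) := by
  by_cases hθ : θ = 0
  · subst hθ
    simp
    norm_num
  · have h1 := integral_exp_mul_I_eq_sinc θ
    have h2' : (θ : ℂ) * ∫ u in (-1 : ℝ)..1, cexp (θ * u * I) = ∫ t in -θ..θ, cexp (t * I) := by
      have e : ∀ u : ℝ, cexp (θ * u * I) = cexp (((θ * u : ℝ) : ℂ) * I) := by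
        intro u
        push_cast
        rfl
      simp_rw [e]
      rw [← Complex.real_smul]
      have h3 := intervalIntegral.smul_integral_comp_mul_left (a := (-1 : ℝ)) (b := 1)
        (fun t : ℝ => cexp (t * I)) θ
      rw [mul_neg, mul_one] at h3
      exact h3
    rw [h1] at h2'
    have hθ' : (θ : ℂ) ≠ 0 := Complex.ofReal_ne_zero.2 hθ
    have h4 : (θ : ℂ) * (∫ u in (-1 : ℝ)..1, cexp (θ * u * I)) =
        (θ : ℂ) * (2 * (Real.sinc θ : ℂ)) := by
      rw [h2']
      ring
    exact mul_left_cancel₀ hθ' h4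

variable {g : ℝ → ℂ} {S : ℝ}

/-- powers of `sinc` preserve the annihilation, with a loss of frequency -/
theorem sinc_pow (hg : Integrable g) (h0 : ∀ s : ℝ, |s| ≤ S → ft g s = 0) {η : ℝ} (hη : 0 ≤ η)
    (m : ℝ) : ∀ (k : ℕ) (s : ℝ), |s| + k * η ≤ S →
      ft (fun t => g t * ((Real.sinc (η * (t - m)) : ℂ)) ^ k) s = 0 := by
  intro k
  induction k with
  | zero =>
    intro s hs
    simp only [pow_zero, mul_one]
    exact h0 s (by simpa using hs)
  | succ k ih =>
    intro s hs
    set G : ℝ → ℂ := fun t => g t * ((Real.sinc (η * (t - m)) : ℂ)) ^ k with hG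
    have hsc : Continuous (fun t : ℝ => ((Real.sinc (η * (t - m)) : ℂ))) :=
      Complex.continuous_ofReal.comp (Real.continuous_sinc.comp (by fun_prop))
    have hGi : Integrable G := by
      refine hg.norm.mono' (hg.aestronglyMeasurable.mul (hsc.pow k).aestronglyMeasurable)
        (Eventually.of_forall fun t => ?_)
      rw [norm_mul, norm_pow, Complex.norm_real, Real.norm_eq_abs]
      exact mul_le_of_le_one_right (norm_nonneg _)
        (pow_le_one₀ (abs_nonneg _) (Real.abs_sinc_le_one _))
    have e1 : ∀ t : ℝ, g t * ((Real.sinc (η * (t - m)) : ℂ)) ^ (k + 1) * cexp (-(s * t * I)) =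
        ∫ u in (-1 : ℝ)..1, (1 / 2 : ℂ) * (cexp (-(η * m * u * I)) *
          (G t * cexp (-(((s - η * u : ℝ) : ℂ) * t * I)))) := by
      intro t
      have h1 := sinc_avg (η * (t - m))
      have h2 : ((Real.sinc (η * (t - m)) : ℂ)) =
          (1 / 2 : ℂ) * ∫ u in (-1 : ℝ)..1, cexp (((η * (t - m) : ℝ) : ℂ) * u * I) := by
        rw [h1]
        ring
      rw [pow_succ]
      rw [show g t * ((Real.sinc (η * (t - m)) : ℂ) ^ k * (Real.sinc (η * (t - m)) : ℂ)) *
        cexp (-(s * t * I)) = G t * cexp (-(s * t * I)) * (Real.sinc (η * (t - m)) : ℂ) by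
          simp only [hG]; ring]
      rw [h2, ← mul_assoc, ← intervalIntegral.integral_const_mul]
      refine intervalIntegral.integral_congr fun u _ => ?_
      have e3 : cexp (-(η * m * u * I)) * (G t * cexp (-(((s - η * u : ℝ) : ℂ) * t * I))) =
          G t * cexp (-(s * t * I)) * cexp (((η * (t - m) : ℝ) : ℂ) * u * I) := by
        have e4 : cexp (-(η * m * u * I)) * cexp (-(((s - η * u : ℝ) : ℂ) * t * I)) =
            cexp (-(s * t * I)) * cexp (((η * (t - m) : ℝ) : ℂ) * u * I) := by
          rw [← Complex.exp_add, ← Complex.exp_add]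
          congr 1
          push_cast
          ring
        linear_combination (G t) * e4
      rw [e3]
      ring
    rw [ft, integral_congr_ae (ae_of_all _ e1)]
    have hint : Integrable (Function.uncurry fun (t u : ℝ) => (1 / 2 : ℂ) *
        (cexp (-(η * m * u * I)) * (G t * cexp (-(((s - η * u : ℝ) : ℂ) * t * I)))))
        ((volume : Measure ℝ).prod (volume.restrict (Set.Ioc (-1 : ℝ) 1))) := by
      have h1 : Integrable (fun u : ℝ => (1 : ℝ)) (volume.restrict (Set.Ioc (-1 : ℝ) 1)) :=
        integrable_const _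
      have h2 := hGi.norm.mul_prod h1
      refine h2.mono' ?_ (Eventually.of_forall fun p => ?_)
      · have hgs : AEStronglyMeasurable (fun p : ℝ × ℝ => G p.1)
            ((volume : Measure ℝ).prod (volume.restrict (Set.Ioc (-1 : ℝ) 1))) :=
          hGi.aestronglyMeasurable.comp_fst
        have c1 : Continuous (fun p : ℝ × ℝ => cexp (-(η * m * p.2 * I))) := by fun_prop
        have c2 : Continuous (fun p : ℝ × ℝ => cexp (-(((s - η * p.2 : ℝ) : ℂ) * p.1 * I))) := by
          fun_prop
        exact (c1.aestronglyMeasurable.mul (hgs.mul c2.aestronglyMeasurable)).const_mul _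
      · simp only [Function.uncurry]
        rw [norm_mul, norm_mul, norm_mul, Complex.norm_exp, Complex.norm_exp]
        simp
        have := norm_nonneg (G p.1)
        nlinarith
    have hsw : ∫ t : ℝ, ∫ u in (-1 : ℝ)..1, (1 / 2 : ℂ) * (cexp (-(η * m * u * I)) *
        (G t * cexp (-(((s - η * u : ℝ) : ℂ) * t * I)))) =
        ∫ u in (-1 : ℝ)..1, ∫ t : ℝ, (1 / 2 : ℂ) * (cexp (-(η * m * u * I)) *
        (G t * cexp (-(((s - η * u : ℝ) : ℂ) * t * I)))) := by
      simp_rw [intervalIntegral.integral_of_le (show (-1 : ℝ) ≤ 1 by norm_num)]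
      exact integral_integral_swap hint
    rw [hsw]
    have hz : ∀ u ∈ Set.uIcc (-1 : ℝ) 1, (∫ t : ℝ, (1 / 2 : ℂ) * (cexp (-(η * m * u * I)) *
        (G t * cexp (-(((s - η * u : ℝ) : ℂ) * t * I))))) = 0 := by
      intro u hu
      rw [Set.uIcc_of_le (by norm_num)] at hu
      rw [integral_const_mul, integral_const_mul]
      have h1 := ih (s - η * u) (by
        have h2 : |s - η * u| ≤ |s| + η := by
          refine (abs_sub _ _).trans ?_
          rw [abs_mul, abs_of_nonneg hη]
          have h3 : |u| ≤ 1 := abs_le.2 ⟨hu.1, hu.2⟩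
          nlinarith
        push_cast at hs
        linarith)
      unfold ft at h1
      rw [h1, mul_zero, mul_zero]
    rw [intervalIntegral.integral_congr hz]
    simp

/-- a pointwise bound inside -/
theorem sinc_in {θ : ℝ} (h : |θ| ≤ 1) : Real.exp (-(θ ^ 2 / 3)) ≤ Real.sinc θ := by
  have key : ∀ θ : ℝ, 0 ≤ θ → θ ≤ 1 → Real.exp (-(θ ^ 2 / 3)) ≤ Real.sinc θ := by
    intro θ h0 h1
    rcases h0.eq_or_lt with rfl | hpos
    · simp
    · rw [Real.sinc_of_ne_zero hpos.ne', le_div_iff₀ hpos]
      have h2 := Real.sin_gt_sub_cube hpos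
      have h3 : Real.exp (-(θ ^ 2 / 3)) ≤ 1 - θ ^ 2 / 6 := by
        have h4 : 0 < 1 + θ ^ 2 / 3 := by positivity
        have h5 := Real.add_one_le_exp (θ ^ 2 / 3)
        rw [Real.exp_neg]
        rw [inv_le_comm₀ (Real.exp_pos _) (by nlinarith)]
        refine le_trans ?_ h5
        rw [inv_le_iff_one_le_mul₀ (by nlinarith)]
        nlinarith [mul_pos hpos hpos, mul_nonneg hpos.le (sub_nonneg.2 h1)]
      nlinarith
  have h1 := key |θ| (abs_nonneg _) h
  rw [sq_abs] at h1
  rcases abs_choice θ with h2 | h2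
  · rwa [h2] at h1
  · rw [h2, Real.sinc_neg] at h1
    exact h1

/-- The mass of a function with a spectral gap in the middle of an interval on which it has a
constant sign is exponentially small. -/
theorem mass {f : ℝ → ℝ} (hf : Integrable f) (hS : 0 < S)
    (h0 : ∀ s : ℝ, |s| ≤ S → ft (fun t => (f t : ℂ)) s = 0) {m R : ℝ} (hR : 0 < R)
    (hpos : ∀ᵐ t : ℝ, |t - m| < R → 0 ≤ f t) :
    ∫ t in {t : ℝ | |t - m| < R / 8}, |f t| ≤ 64 * (∫ t, |f t|) * Real.exp (-(S * R / 4)) := by
  set N := ∫ t, |f t| with hN
  have hN0 : 0 ≤ N := integral_nonneg fun t => abs_nonneg _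
  have hmeas : ∀ ρ : ℝ, MeasurableSet {t : ℝ | |t - m| < ρ} := fun ρ =>
    measurableSet_lt (by fun_prop) measurable_const
  have hle : ∀ s : Set ℝ, ∫ t in s, |f t| ≤ N := fun s =>
    setIntegral_le_integral hf.abs (Eventually.of_forall fun t => abs_nonneg _)
  rcases lt_or_ge (S * R) 16 with hsm | hbig
  · refine (hle _).trans ?_
    have h1 : Real.exp (-4) ≤ Real.exp (-(S * R / 4)) := Real.exp_le_exp.2 (by linarith)
    have h2 : 1 ≤ 64 * Real.exp (-4) := by
      have h3 : Real.exp 4 ≤ 64 := by
        have h4 := Real.exp_one_lt_d9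
        have h5 : Real.exp 4 = Real.exp 1 ^ 4 := by
          rw [← Real.exp_nat_mul]
          norm_num
        rw [h5]
        have h6 : Real.exp 1 ^ 4 ≤ (2.72 : ℝ) ^ 4 :=
          pow_le_pow_left₀ (Real.exp_pos _).le (by linarith) 4
        refine h6.trans (by norm_num)
      rw [Real.exp_neg, ← div_eq_mul_inv, le_div_iff₀ (Real.exp_pos _)]
      linarith
    nlinarith [Real.exp_pos (-(4 : ℝ))]
  · -- the exponent
    set k : ℕ := ⌊S * R / 8⌋₊ with hk
    have hk1 : (k : ℝ) ≤ S * R / 8 := Nat.floor_le (by positivity)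
    have hk2 : S * R / 8 < k + 1 := Nat.lt_floor_add_one _
    have hk3 : S * R / 16 ≤ k := by linarith
    have hk0 : 0 < (k : ℝ) := by linarith
    set η : ℝ := S / (2 * k) with hη
    have hη0 : 0 < η := by positivity
    have hz := sinc_pow hf.ofReal h0 hη0.le m (2 * k) 0 (by
      rw [abs_zero, zero_add, hη]
      push_cast
      rw [mul_div_cancel₀ _ (by positivity)])
    set q : ℝ → ℝ := fun t => Real.sinc (η * (t - m)) ^ (2 * k) with hq
    have hqc : Continuous q := (Real.continuous_sinc.comp (by fun_prop)).pow _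
    have hq0 : ∀ t, 0 ≤ q t := fun t => by
      simp only [hq]
      rw [pow_mul]
      positivity
    have hq1 : ∀ t, q t ≤ 1 := fun t => by
      have h1 : |q t| ≤ 1 := by
        simp only [hq]
        rw [abs_pow]
        exact pow_le_one₀ (abs_nonneg _) (Real.abs_sinc_le_one _)
      exact (le_abs_self _).trans h1
    have hfq : Integrable (fun t => f t * q t) := hf.norm.mono'
      (hf.aestronglyMeasurable.mul hqc.aestronglyMeasurable) (Eventually.of_forall fun t => by
        rw [norm_mul, Real.norm_of_nonneg (hq0 t)]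
        exact mul_le_of_le_one_right (norm_nonneg _) (hq1 t))
    have hint : ∫ t, f t * q t = 0 := by
      have h1 : ∫ t, ((f t * q t : ℝ) : ℂ) = ((∫ t, f t * q t : ℝ) : ℂ) :=
        integral_ofReal (μ := (volume : Measure ℝ)) (𝕜 := ℂ) (f := fun t => f t * q t)
      have h2 : ∫ t, ((f t * q t : ℝ) : ℂ) = 0 := by
        rw [← hz]
        unfold ft
        refine integral_congr_ae (Eventually.of_forall fun t => ?_)
        simp [hq]
      rw [h1] at h2
      exact_mod_cast h2
    -- outside
    set J : Set ℝ := {t : ℝ | |t - m| < R} with hJ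
    have hJm : MeasurableSet J := hmeas R
    have hout : ∀ t ∈ Jᶜ, q t ≤ 16 * Real.exp (-(5 / 16 * (S * R))) := by
      intro t ht
      have ht1 : R ≤ |t - m| := by
        by_contra hc
        push Not at hc
        exact ht hc
      have hne : η * (t - m) ≠ 0 := by
        refine mul_ne_zero hη0.ne' fun h => ?_
        rw [h, abs_zero] at ht1
        linarith
      have h1 : |Real.sinc (η * (t - m))| ≤ 1 / 4 := by
        rw [Real.sinc_of_ne_zero hne, abs_div]
        have h2 : 4 ≤ |η * (t - m)| := by
          rw [abs_mul, abs_of_pos hη0]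
          have h3 : 4 ≤ η * R := by
            rw [hη, div_mul_eq_mul_div, le_div_iff₀ (by positivity)]
            linarith
          nlinarith
        rw [div_le_div_iff₀ (by linarith) (by norm_num)]
        have h3 := Real.abs_sin_le_one (η * (t - m))
        linarith
      have h2 : q t ≤ (1 / 4) ^ (2 * k) := by
        simp only [hq]
        have h3 : Real.sinc (η * (t - m)) ^ (2 * k) = |Real.sinc (η * (t - m))| ^ (2 * k) := by
          rw [pow_mul, pow_mul, sq_abs]
        rw [h3]
        exact pow_le_pow_left₀ (abs_nonneg _) h1 _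
      refine h2.trans ?_
      have h4 : (1 / 4 : ℝ) ≤ Real.exp (-(5 / 4)) := by
        have h5 : Real.exp (5 / 4) ≤ 4 := by
          have h6 : Real.exp (5 / 4) = Real.exp 5 ^ ((1 : ℝ) / 4) := by
            rw [← Real.exp_mul]
            norm_num
          have h7 := Real.exp_one_lt_d9
          have h8 : Real.exp 5 ≤ 256 := by
            have h9 : Real.exp 5 = Real.exp 1 ^ 5 := by
              rw [← Real.exp_nat_mul]
              norm_num
            rw [h9]
            have h6 : Real.exp 1 ^ 5 ≤ (2.72 : ℝ) ^ 5 :=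
              pow_le_pow_left₀ (Real.exp_pos _).le (by linarith) 5
            refine h6.trans (by norm_num)
          have h10 : Real.exp (5 / 4) ^ 4 ≤ 4 ^ 4 := by
            rw [← Real.exp_nat_mul]
            norm_num
            exact h8
          exact le_of_pow_le_pow_left₀ (by norm_num) (by norm_num) h10
        rw [Real.exp_neg, one_div]
        exact inv_anti₀ (Real.exp_pos _) h5
      have h5 : (1 / 4 : ℝ) ^ (2 * k) ≤ Real.exp (-(5 / 4)) ^ (2 * k) :=
        pow_le_pow_left₀ (by norm_num) h4 _
      refine h5.trans ?_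
      rw [← Real.exp_nat_mul]
      have h6 : ((2 * k : ℕ) : ℝ) * (-(5 / 4)) ≤ 5 / 2 + -(5 / 16 * (S * R)) := by
        push_cast
        linarith
      refine (Real.exp_le_exp.2 h6).trans ?_
      rw [Real.exp_add]
      refine mul_le_mul_of_nonneg_right ?_ (Real.exp_pos _).le
      have h7 : Real.exp (5 / 2) ^ 2 ≤ 16 ^ 2 := by
        rw [← Real.exp_nat_mul]
        norm_num
        have h7 := Real.exp_one_lt_d9
        have h9 : Real.exp 5 = Real.exp 1 ^ 5 := by
          rw [← Real.exp_nat_mul]
          norm_num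
        rw [h9]
        have h6 : Real.exp 1 ^ 5 ≤ (2.72 : ℝ) ^ 5 :=
          pow_le_pow_left₀ (Real.exp_pos _).le (by linarith) 5
        refine h6.trans (by norm_num)
      exact le_of_pow_le_pow_left₀ (by norm_num) (by norm_num) h7
    -- inside
    set J1 : Set ℝ := {t : ℝ | |t - m| < R / 8} with hJ1
    have hJ1m : MeasurableSet J1 := hmeas _
    have hin : ∀ t ∈ J1, Real.exp (-(S * R / 16)) ≤ q t := by
      intro t ht
      have ht1 : |t - m| < R / 8 := ht
      have h1 : |η * (t - m)| ≤ 1 := by
        rw [abs_mul, abs_of_pos hη0]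
        have h3 : η * (R / 8) ≤ 1 := by
          rw [hη, div_mul_eq_mul_div, div_le_one (by positivity)]
          linarith
        nlinarith
      have h2 := sinc_in h1
      have h3 := pow_le_pow_left₀ (Real.exp_pos _).le h2 (2 * k)
      refine le_trans ?_ h3
      rw [← Real.exp_nat_mul]
      apply Real.exp_le_exp.2
      push_cast
      have h4 : (η * (t - m)) ^ 2 ≤ (η * (R / 8)) ^ 2 := by
        rw [← sq_abs, abs_mul, abs_of_pos hη0]
        exact pow_le_pow_left₀ (by positivity) (mul_le_mul_of_nonneg_left ht1.le hη0.le) 2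
      have h5 : 2 * (k : ℝ) * ((η * (R / 8)) ^ 2 / 3) ≤ S * R / 16 := by
        have e : 2 * (k : ℝ) * ((η * (R / 8)) ^ 2 / 3) = (S * R) ^ 2 / (384 * k) := by
          rw [hη]
          field_simp
          ring
        rw [e, div_le_iff₀ (by positivity)]
        nlinarith
      have h6 : 2 * (k : ℝ) * ((η * (t - m)) ^ 2 / 3) ≤ 2 * (k : ℝ) * ((η * (R / 8)) ^ 2 / 3) := by
        apply mul_le_mul_of_nonneg_left _ (by positivity)
        linarith
      linarith
    -- conclusion
    have hJJ : J1 ⊆ J := fun t ht => by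
      have ht1 : |t - m| < R / 8 := ht
      show |t - m| < R
      linarith
    have hsplit := integral_add_compl hJm hfq
    rw [hint] at hsplit
    have h1 : ∫ t in Jᶜ, -(f t * q t) ≤ 16 * Real.exp (-(5 / 16 * (S * R))) * N := by
      calc ∫ t in Jᶜ, -(f t * q t) ≤ ∫ t in Jᶜ, 16 * Real.exp (-(5 / 16 * (S * R))) * |f t| := by
            refine setIntegral_mono_on hfq.neg.integrableOn (hf.abs.const_mul _).integrableOn
              hJm.compl fun t ht => ?_
            have h2 := hout t ht
            have h3 : -(f t * q t) ≤ |f t| * q t := by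
              rw [← neg_mul]
              exact mul_le_mul_of_nonneg_right (neg_le_abs _) (hq0 t)
            refine h3.trans ?_
            rw [mul_comm]
            exact mul_le_mul_of_nonneg_right h2 (abs_nonneg _)
        _ = 16 * Real.exp (-(5 / 16 * (S * R))) * ∫ t in Jᶜ, |f t| := integral_const_mul _ _
        _ ≤ _ := mul_le_mul_of_nonneg_left (hle _) (by positivity)
    rw [integral_neg] at h1
    have h2 : Real.exp (-(S * R / 16)) * ∫ t in J1, |f t| ≤ ∫ t in J, f t * q t := by
      rw [← integral_const_mul]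
      have h3 : ∫ t in J1, Real.exp (-(S * R / 16)) * |f t| ≤ ∫ t in J1, f t * q t := by
        refine setIntegral_mono_ae_restrict (hf.abs.const_mul _).integrableOn hfq.integrableOn ?_
        rw [EventuallyLE, ae_restrict_iff' hJ1m]
        filter_upwards [hpos] with t ht ht1
        have h4 := ht (hJJ ht1)
        rw [abs_of_nonneg h4, mul_comm]
        exact mul_le_mul_of_nonneg_left (hin t ht1) h4
      refine h3.trans (setIntegral_mono_set hfq.integrableOn ?_ (LE.le.eventuallyLE hJJ))
      rw [EventuallyLE, ae_restrict_iff' hJm]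
      filter_upwards [hpos] with t ht ht1
      exact mul_nonneg (ht ht1) (hq0 t)
    have h3 : Real.exp (-(S * R / 16)) * ∫ t in J1, |f t| ≤
        16 * Real.exp (-(5 / 16 * (S * R))) * N := by linarith
    have h4 : ∫ t in J1, |f t| ≤ 16 * N * Real.exp (-(S * R / 4)) := by
      have e1 : Real.exp (-(5 / 16 * (S * R))) =
          Real.exp (-(S * R / 16)) * Real.exp (-(S * R / 4)) := by
        rw [← Real.exp_add]
        congr 1
        ring
      rw [e1] at h3
      have h5 : Real.exp (-(S * R / 16)) * ∫ t in J1, |f t| ≤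
          Real.exp (-(S * R / 16)) * (16 * N * Real.exp (-(S * R / 4))) := by
        refine h3.trans (le_of_eq (by ring))
      exact le_of_mul_le_mul_left h5 (Real.exp_pos _)
    refine h4.trans ?_
    have := Real.exp_pos (-(S * R / 4))
    have h6 : 0 ≤ N * Real.exp (-(S * R / 4)) := by positivity
    nlinarith

end

end Q97.BG
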