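import Pool.Agent.Q97.BG.Ev
import Pool.Agent.Y744.PCR.Glue

set_option autoImplicit false

open MeasureTheory Filter Topology Set Pool.Agent.Y744

namespace Q97.BG

noncomputable section

variable {l : Filter ℝ} {lam : ℝ} {a b : ℕ → ℝ}

/-- counting functions, on the Riemann hypothesis -/
theorem sparse_Aa (RH : RiemannHypothesis) (hl : l ≤ atTop)
    (ha : ∀ n, 0 < a n) (hlam : 0 < lam) (hlen : ∀ n, a n + lam ≤ b n)
    (hdisj : ∀ n k, n ≠ k → ∀ x : ℝ, a n < x → x < b n → a k < x → x < b k → False)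
    (hdiv : ¬ Summable (fun n => ((b n - a n) / b n) ^ 2))
    (hyp : ∀ n α ℓ, a n < α → 0 < ℓ → α + ℓ < b n →
      Tendsto (fun T => Ww T α ℓ) l (𝓝 (2 * (gp (α + ℓ) - gp α)))) :
    ∀ x, Tendsto (fun T => Aa T x) l (𝓝 (AG x)) := by
  obtain ⟨C0, T0, hT0, hb⟩ := Aa_bound RH
  refine sparse_rigid (κ := 1 / 2) (by norm_num) (T0 := T0) (fun T hT => Aa_mono (by linarith))
    (fun T y hy => Aa_neg T y hy) hb (fun ε hε => Aa_diag hε) (fun K hK h hh => ?_)
    (W := Ww) (fun T hT a ℓ ha hℓ => Ww_lower (by linarith))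
    (fun T hT a ℓ η ha hℓ hη => Ww_upper (by linarith) hη hℓ) hl ha hlam hlen hdisj hdiv hyp
  have h1 := (mont_lim RH (NTf_fav hK (by norm_num) (by norm_num) hh)).neg
  rw [AG_mont hK (by norm_num) hh]
  refine h1.congr fun T => ?_
  rw [Aa_int hK hh]
  rw [div_eq_inv_mul]

theorem pr_pos {α β : ℝ} (hα : 0 < α) : pr α β = gp β - gp α := by
  unfold pr
  rw [Set.indicator_of_notMem (by
    rintro ⟨h2, h3⟩
    linarith)]
  ring

theorem win_iff (hl : l ≤ atTop) {α β : ℝ} (h : α < β) :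
    Asymptotics.IsEquivalent l (fun T => (G.N T α β : ℝ)) (fun T => G.P α β * G.X T) ↔
      Tendsto (fun T => Nr T α β) l (𝓝 (pr α β)) := by
  have hP := G.P_pos h
  have hev : ∀ᶠ T in l, 1 < T := hl (eventually_gt_atTop 1)
  have hne : ∀ᶠ T in l, G.P α β * G.X T ≠ 0 := by
    filter_upwards [hev] with T hT
    rw [G.X_eq]
    exact mul_ne_zero hP.ne' (Xf_pos hT).ne'
  rw [Asymptotics.isEquivalent_iff_tendsto_one hne]
  have e : (fun T => (G.N T α β : ℝ)) / (fun T => G.P α β * G.X T) =ᶠ[l]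
      fun T => Nr T α β / G.P α β := by
    filter_upwards [hev] with T hT
    show (G.N T α β : ℝ) / (G.P α β * G.X T) = _
    rw [G.N_eq hT, G.X_eq]
    unfold Nr
    rw [div_div, mul_comm (Xf T)]
  rw [tendsto_congr' e, ← G.P_eq]
  constructor
  · intro h1
    have := h1.mul_const (G.P α β)
    rw [one_mul] at this
    refine this.congr fun T => ?_
    rw [div_mul_cancel₀ _ hP.ne']
  · intro h1
    have := h1.div_const (G.P α β)
    rwa [div_self hP.ne'] at this

/-- the conjecture from a long system of intervals -/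
theorem mont_of_sparse (RH : RiemannHypothesis) (hl : l ≤ atTop)
    (ha : ∀ n, 0 < a n) (hlam : 0 < lam) (hlen : ∀ n, a n + lam ≤ b n)
    (hdisj : ∀ n k, n ≠ k → ∀ x : ℝ, a n < x → x < b n → a k < x → x < b k → False)
    (hdiv : ¬ Summable (fun n => ((b n - a n) / b n) ^ 2))
    (hyp : ∀ n α β, a n < α → α < β → β < b n →
      Asymptotics.IsEquivalent l (fun T => (G.N T α β : ℝ)) (fun T => G.P α β * G.X T)) :
    G.Montgomery l := by
  rw [G.Mont_iff hl]
  intro α β hαβ
  refine Nr_all hl (sparse_Aa RH hl ha hlam hlen hdisj hdiv ?_) hαβ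
  intro n α ℓ h1 h2 h3
  have hα : 0 < α := (ha n).trans h1
  have h4 := (win_iff hl (show α < α + ℓ by linarith)).mp (hyp n α (α + ℓ) h1 (by linarith) h3)
  rw [pr_pos hα] at h4
  refine (h4.const_mul 2).congr fun T => ?_
  rw [Ww_eq hα]

/-- a sparse sequence in an unbounded set -/
theorem exists_seq {R : Set ℝ} (hR : ¬ BddAbove R) {c : ℝ} (hc : 0 < c) :
    ∃ ρ : ℕ → ℝ, (∀ n, ρ n ∈ R) ∧ (∀ n, 1 < ρ n) ∧ ∀ n k, n < k → (1 + c) * ρ n < ρ k := by
  have hex : ∀ x : ℝ, ∃ r ∈ R, x < r := by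
    intro x
    by_contra hcon
    push Not at hcon
    exact hR ⟨x, hcon⟩
  choose f hfR hf using hex
  let ρ : ℕ → ℝ := fun n => Nat.rec (f 1) (fun _ x => f ((1 + c) * x)) n
  have h0 : ρ 0 = f 1 := rfl
  have hs : ∀ n, ρ (n + 1) = f ((1 + c) * ρ n) := fun n => rfl
  have h1 : ∀ n, 1 < ρ n := by
    intro n
    induction n with
    | zero => rw [h0]; exact hf 1
    | succ n ih =>
      rw [hs]
      have := hf ((1 + c) * ρ n)
      nlinarith
  have hstep : ∀ n, (1 + c) * ρ n < ρ (n + 1) := fun n => by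
    rw [hs]
    exact hf _
  refine ⟨ρ, fun n => ?_, h1, ?_⟩
  · cases n with
    | zero => rw [h0]; exact hfR 1
    | succ n => rw [hs]; exact hfR _
  · intro n k hnk
    induction k with
    | zero => omega
    | succ k ih =>
      rcases Nat.lt_succ_iff_lt_or_eq.mp hnk with h | h
      · have h2 := ih h
        have h3 := hstep k
        have h4 := h1 k
        nlinarith
      · rw [h]
        exact hstep k

/-- the conjecture from the intervals `(r, (1 + c) r)`, `r` in an unbounded set -/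
theorem mont_of_lac (RH : RiemannHypothesis) (hl : l ≤ atTop) {R : Set ℝ} (hR : ¬ BddAbove R)
    {c : ℝ} (hc : 0 < c)
    (hyp : ∀ r ∈ R, ∀ α β, r < α → α < β → β < (1 + c) * r →
      Asymptotics.IsEquivalent l (fun T => (G.N T α β : ℝ)) (fun T => G.P α β * G.X T)) :
    G.Montgomery l := by
  obtain ⟨ρ, hρR, hρ1, hρ⟩ := exists_seq hR hc
  refine mont_of_sparse (a := ρ) (b := fun n => (1 + c) * ρ n) (lam := c) RH hl
    (fun n => by linarith [hρ1 n]) hc (fun n => by nlinarith [hρ1 n]) ?_ ?_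
    (fun n α β h1 h2 h3 => hyp (ρ n) (hρR n) α β h1 h2 h3)
  · intro n k hnk x h1 h2 h3 h4
    rcases lt_or_gt_of_ne hnk with h | h
    · linarith [hρ n k h]
    · linarith [hρ k n h]
  · have e : (fun n => (((1 + c) * ρ n - ρ n) / ((1 + c) * ρ n)) ^ 2) = fun _ : ℕ =>
        (c / (1 + c)) ^ 2 := by
      funext n
      have := hρ1 n
      have h0 : ρ n ≠ 0 := by linarith
      field_simp
      ring
    rw [e, summable_const_iff]
    positivity

end

end Q97.BG
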