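import Pool.Agent.Q97.BG.Ev1
import Pool.Agent.Q97.BG.PCa
import Pool.Agent.Q241.OP.Fin8

set_option autoImplicit false

open MeasureTheory Filter Topology Set

namespace Q97.BG

noncomputable section

open Pool.Agent.Y744 Q241.OP H370 TH803TW
open Pool.Agent.Y750.OM (NO bl)
open Pool.Agent.Results.MP_103a5c_nt.BohrSetPairs (mont)

variable {lam : ℝ} {a b σ : ℕ → ℝ}

/-- counting functions, when almost all zeros are on the line -/
theorem sparse_onl (hl : Onl)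
    (ha : ∀ n, 0 < a n) (hlam : 0 < lam) (hlen : ∀ n, a n + lam ≤ b n)
    (hdisj : ∀ n k, n ≠ k → ∀ x : ℝ, a n < x → x < b n → a k < x → x < b k → False)
    (hdiv : ¬ Summable (fun n => ((b n - a n) / b n) ^ 2))
    (hσ : ∀ n, σ n = 1 ∨ σ n = -1)
    (hyp : ∀ n α ℓ, a n < α → 0 < ℓ → α + ℓ < b n → ∀ ε, 0 < ε → ∀ᶠ T in atTop,
      -ε ≤ σ n * (Ww T α ℓ - 2 * (gp (α + ℓ) - gp α))) :
    ∀ x, Tendsto (fun T => Aa T x) atTop (𝓝 (AG x)) := by
  obtain ⟨C0, T0, hT0, hb⟩ := Aa_boundU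
  refine sparse_rigid1 (κ := 1 / 2) (by norm_num) (T0 := T0) (fun T hT => Aa_mono (by linarith))
    (fun T y hy => Aa_neg T y hy) hb (fun ε hε => Aa_diag hε) (fun K hK h hh => ?_)
    (W := Ww) (fun T hT a ℓ ha hℓ => Ww_lower (by linarith))
    (fun T hT a ℓ η ha hℓ hη => Ww_upper (by linarith) hη hℓ) le_rfl ha hlam hlen hdisj hdiv
    hσ hyp
  have h1 := (onl_lim hl (by norm_num) le_rfl (OT_Kav hK hh)).neg
  rw [AG_mont hK (by norm_num) hh]
  have e : mo (Kav K h) = mont (Kav K h) := by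
    rw [mo_eq (OT_Kav hK hh) (by norm_num), bl_Kav hK hh, mont_fav hK (by norm_num) hh]
  rw [e] at h1
  refine h1.congr fun T => ?_
  rw [Aa_int hK hh, bl_Kav hK hh]
  rw [div_eq_inv_mul]

/-- one half of the asymptotic formula for the window `[α, β]` -/
def Half (s α β : ℝ) : Prop := ∀ ε : ℝ, 0 < ε → ∀ᶠ T : ℝ in atTop,
  -ε ≤ s * ((Q241.OP.G.N T α β : ℝ) / Q241.OP.G.X T - ∫ u in α..β, Q241.OP.G.F u)

theorem half_of_mont (h : Q241.OP.G.Mont) {s α β : ℝ} (hs : s = 1 ∨ s = -1) (hα : 0 < α) (hαβ : α < β) :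
    Half s α β := by
  intro ε hε
  have h1 := (Q241.OP.G.As_iff hα hαβ).mp (h α β hα hαβ)
  filter_upwards [(Metric.tendsto_nhds.1 h1) ε hε, Q241.OP.G.Nr_eq hα β] with T hT e
  rw [Real.dist_eq] at hT
  rw [e, Q241.OP.G.intF]
  have h2 := abs_lt.1 hT
  rcases hs with rfl | rfl <;> linarith [h2.1, h2.2]

/-- the conjecture from a long system of intervals, when almost all zeros are on the line -/
theorem mont_sparse (hl : Onl)
    (ha : ∀ n, 0 < a n) (hlam : 0 < lam) (hlen : ∀ n, a n + lam ≤ b n)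
    (hdisj : ∀ n k, n ≠ k → ∀ x : ℝ, a n < x → x < b n → a k < x → x < b k → False)
    (hdiv : ¬ Summable (fun n => ((b n - a n) / b n) ^ 2))
    (hσ : ∀ n, σ n = 1 ∨ σ n = -1)
    (hyp : ∀ n α β, a n < α → α < β → β < b n → Half (σ n) α β) : Q241.OP.G.Mont := by
  refine Q241.OP.G.Mont_of (sparse_onl hl ha hlam hlen hdisj hdiv hσ ?_)
  intro n α ℓ h1 h2 h3 ε hε
  have hα : 0 < α := (ha n).trans h1
  filter_upwards [hyp n α (α + ℓ) h1 (by linarith) h3 (ε / 2) (by positivity),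
    Q241.OP.G.Nr_eq hα (α + ℓ)] with T h4 h5
  rw [h5, Q241.OP.G.intF] at h4
  rw [Ww_eq hα]
  linarith

/-- the conjecture from the intervals `(r, (1 + c) r)`, `r` in an unbounded set -/
theorem mont_lac (hl : Onl) {R : Set ℝ} (hR : ¬ BddAbove R) {c : ℝ} (hc : 0 < c)
    {s : ℝ → ℝ} (hs : ∀ r, s r = 1 ∨ s r = -1)
    (hyp : ∀ r ∈ R, ∀ α β, r < α → α < β → β < (1 + c) * r → Half (s r) α β) : Q241.OP.G.Mont := by
  obtain ⟨ρ, hρR, hρ1, hρ⟩ := exists_seq hR hc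
  refine mont_sparse (a := ρ) (b := fun n => (1 + c) * ρ n) (lam := c) (σ := fun n => s (ρ n)) hl
    (fun n => by linarith [hρ1 n]) hc (fun n => by nlinarith [hρ1 n]) ?_ ?_ (fun n => hs _)
    (fun n α β h1 h2 h3 => hyp (ρ n) (hρR n) α β h1 h2 h3)
  · intro n k hnk x h1 h2 h3 h4
    rcases lt_or_gt_of_ne hnk with h | h
    · linarith [hρ n k h]
    · linarith [hρ k n h]
  · have e : (fun n => (((1 + c) * ρ n - ρ n) / ((1 + c) * ρ n)) ^ 2) = fun _ : ℕ =>
        (c / (1 + c)) ^ 2 := by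
      funext n
      have := hρ1 n
      have h0 : ρ n ≠ 0 := by linarith
      field_simp
      ring
    rw [e, summable_const_iff]
    positivity

/-- the conjecture implies that almost all zeros are good -/
theorem good_of_mont (h : Q241.OP.G.Mont) : Good :=
  (Q241.OP.G.main.2.2.2.2 1 1 one_pos fun α β hα _ hαβ _ => h α β hα hαβ).2

theorem num_le (T : ℝ) : (Num (fun s => s.re ≠ 1 / 2) T : ℝ) ≤
    Num (fun s => s.re ≠ 1 / 2 ∨ deriv riemannZeta s = 0) T := by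
  classical
  rw [Num_eq, Num_eq]
  refine Finset.sum_le_sum_of_subset_of_nonneg ?_ fun s _ _ => mz_nonneg s
  intro s hs
  rw [Finset.mem_filter] at hs ⊢
  exact ⟨hs.1, Or.inl hs.2⟩

/-- almost all zeros are on the critical line -/
def Line : Prop := Tendsto (fun T => (Num (fun s => s.re ≠ 1 / 2) T : ℝ) /
    Num (fun _ => True) T) atTop (𝓝 0)

theorem off_of_mont (h : Q241.OP.G.Mont) : Line := by
  refine squeeze_zero (fun T => by positivity) (fun T => ?_) (good_of_mont h)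
  exact div_le_div_of_nonneg_right (num_le T) (by positivity)

/-- **Main theorem**, general systems of intervals -/
theorem main_sys
    (ha : ∀ n, 0 < a n) (hlam : 0 < lam) (hlen : ∀ n, a n + lam ≤ b n)
    (hdisj : ∀ n k, n ≠ k → ∀ x : ℝ, a n < x → x < b n → a k < x → x < b k → False)
    (hdiv : ¬ Summable (fun n => ((b n - a n) / b n) ^ 2))
    (hσ : ∀ n, σ n = 1 ∨ σ n = -1) :
    Q241.OP.G.Mont ↔ Line ∧ ∀ n α β, a n < α → α < β → β < b n → Half (σ n) α β :=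
  ⟨fun h => ⟨off_of_mont h, fun n _ _ h1 h2 _ => half_of_mont h (hσ n) ((ha n).trans h1) h2⟩,
    fun h => mont_sparse (onl_of_num h.1) ha hlam hlen hdisj hdiv hσ h.2⟩

/-- **Main theorem**, intervals `(r, (1 + c) r)` -/
theorem main_lac {R : Set ℝ} (hR : ¬ BddAbove R) (hR0 : ∀ r ∈ R, 0 ≤ r) {c : ℝ} (hc : 0 < c)
    {s : ℝ → ℝ} (hs : ∀ r, s r = 1 ∨ s r = -1) :
    Q241.OP.G.Mont ↔ Line ∧ ∀ r ∈ R, ∀ α β, r < α → α < β → β < (1 + c) * r → Half (s r) α β :=
  ⟨fun h => ⟨off_of_mont h, fun r hr _ _ h1 h2 _ =>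
      half_of_mont h (hs r) ((hR0 r hr).trans_lt h1) h2⟩,
    fun h => mont_lac (onl_of_num h.1) hR hc hs h.2⟩

end

end Q97.BG
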